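import Mathlib

/-!
The bit reversal permutation of `{0, ..., 2^L - 1}` and its distribution in rectangles.
-/

open Finset

namespace Pool.Agent.Helper18.BitRev

/-- bit reversal with `L` bits -/
def rev : ℕ → ℕ → ℕ
  | 0, _ => 0
  | (L + 1), p => (p % 2) * 2 ^ L + rev L (p / 2)

@[simp] lemma rev_zero (p : ℕ) : rev 0 p = 0 := rfl

lemma rev_succ (L p : ℕ) : rev (L + 1) p = (p % 2) * 2 ^ L + rev L (p / 2) := rfl

lemma rev_lt (L p : ℕ) : rev L p < 2 ^ L := by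
  induction L generalizing p with
  | zero => simp
  | succ L ih =>
    rw [rev_succ, pow_succ]
    have h1 := ih (p / 2)
    have h2 : p % 2 < 2 := Nat.mod_lt _ (by norm_num)
    have h3 : (p % 2) * 2 ^ L ≤ 1 * 2 ^ L := Nat.mul_le_mul_right _ (by omega)
    omega

lemma rev_add (a b p : ℕ) :
    rev (a + b) p = rev a (p % 2 ^ a) * 2 ^ b + rev b (p / 2 ^ a) := by
  induction a generalizing p with
  | zero => simp
  | succ a ih =>
    have e : a + 1 + b = (a + b) + 1 := by ring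
    rw [e, rev_succ, ih, rev_succ]
    have h1 : p % 2 ^ (a + 1) % 2 = p % 2 := by
      rw [pow_succ, mul_comm]
      exact Nat.mod_mul_right_mod p 2 (2 ^ a)
    have h2 : p % 2 ^ (a + 1) / 2 = (p / 2) % 2 ^ a := by
      rw [pow_succ, mul_comm]
      exact Nat.mod_mul_right_div_self p 2 (2 ^ a)
    have h3 : p / 2 / 2 ^ a = p / 2 ^ (a + 1) := by
      rw [Nat.div_div_eq_div_mul, pow_succ, mul_comm]
    rw [h1, h2, h3, pow_add]
    ring

lemma rev_one (p : ℕ) : rev 1 p = p % 2 := by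
  simp [rev]

lemma rev_rev (L p : ℕ) (hp : p < 2 ^ L) : rev L (rev L p) = p := by
  induction L generalizing p with
  | zero => simp at hp; simp [hp]
  | succ L ih =>
    have hy : rev (L + 1) p = (p % 2) * 2 ^ L + rev L (p / 2) := rev_succ L p
    rw [rev_add L 1, rev_one]
    have hlt := rev_lt L (p / 2)
    have h1 : rev (L + 1) p % 2 ^ L = rev L (p / 2) := by
      rw [hy, add_comm, Nat.add_mul_mod_self_right, Nat.mod_eq_of_lt hlt]
    have h2 : rev (L + 1) p / 2 ^ L = p % 2 := by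
      rw [hy, add_comm, Nat.add_mul_div_right _ _ (by positivity), Nat.div_eq_of_lt hlt, zero_add]
    rw [h1, h2, ih (p / 2) (by rw [pow_succ] at hp; omega)]
    omega

/-- the key structural fact: in the dyadic block `p / 2^a = u`, the leading `a` bits of the image
are the reversal of the last `a` bits of `p` -/
lemma rev_div (a b p : ℕ) : rev (a + b) p / 2 ^ b = rev a (p % 2 ^ a) := by
  rw [rev_add, add_comm, Nat.add_mul_div_right _ _ (by positivity),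
    Nat.div_eq_of_lt (rev_lt b _), zero_add]

lemma rev_block (a b u t : ℕ) (ht : t < 2 ^ a) :
    (u * 2 ^ a + rev a t) / 2 ^ a = u ∧ rev (a + b) (u * 2 ^ a + rev a t) / 2 ^ b = t := by
  have hlt := rev_lt a t
  constructor
  · rw [add_comm, Nat.add_mul_div_right _ _ (by positivity), Nat.div_eq_of_lt hlt, zero_add]
  · rw [rev_div]
    have : (u * 2 ^ a + rev a t) % 2 ^ a = rev a t := by
      rw [add_comm, Nat.add_mul_mod_self_right, Nat.mod_eq_of_lt hlt]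
    rw [this, rev_rev a t ht]

/-- number of points of the graph of `rev L` in the rectangle `[p₁, p₂) × [v₁, v₂)` -/
def cnt (L p₁ p₂ v₁ v₂ : ℕ) : ℕ :=
  ((Ico p₁ p₂).filter (fun p => v₁ ≤ rev L p ∧ rev L p < v₂)).card

/-- number of points in one dyadic block -/
lemma cnt_block_le (a b u v₁ v₂ : ℕ) :
    ((Ico (u * 2 ^ a) ((u + 1) * 2 ^ a)).filter
      (fun p => v₁ ≤ rev (a + b) p ∧ rev (a + b) p < v₂)).card ≤ (v₂ - v₁) / 2 ^ b + 2 := by
  have hinj : Set.InjOn (fun p => rev (a + b) p / 2 ^ b)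
      (((Ico (u * 2 ^ a) ((u + 1) * 2 ^ a)).filter
      (fun p => v₁ ≤ rev (a + b) p ∧ rev (a + b) p < v₂) : Finset ℕ) : Set ℕ) := by
    intro p hp q hq h
    simp only [coe_filter, mem_Ico, Set.mem_ofPred_eq] at hp hq
    simp only [rev_div] at h
    have h1 : p % 2 ^ a = q % 2 ^ a := by
      have := congrArg (rev a) h
      rwa [rev_rev a _ (Nat.mod_lt _ (by positivity)),
        rev_rev a _ (Nat.mod_lt _ (by positivity))] at this
    have hp2 : p / 2 ^ a = u := by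
      apply Nat.div_eq_of_lt_le
      · exact hp.1.1
      · exact hp.1.2
    have hq2 : q / 2 ^ a = u := by
      apply Nat.div_eq_of_lt_le
      · exact hq.1.1
      · exact hq.1.2
    rw [← Nat.div_add_mod p (2 ^ a), ← Nat.div_add_mod q (2 ^ a), h1, hp2, hq2]
  have hmaps : Set.MapsTo (fun p => rev (a + b) p / 2 ^ b)
      (((Ico (u * 2 ^ a) ((u + 1) * 2 ^ a)).filter
      (fun p => v₁ ≤ rev (a + b) p ∧ rev (a + b) p < v₂) : Finset ℕ) : Set ℕ)
      ((Icc (v₁ / 2 ^ b) ((v₂ - 1) / 2 ^ b) : Finset ℕ) : Set ℕ) := by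
    intro p hp
    simp only [coe_filter, mem_Ico, Set.mem_ofPred_eq] at hp
    simp only [coe_Icc, Set.mem_Icc]
    exact ⟨Nat.div_le_div_right hp.2.1, Nat.div_le_div_right (by omega)⟩
  refine (card_le_card_of_injOn _ hmaps hinj).trans ?_
  rw [Nat.card_Icc]
  by_cases hv : v₁ < v₂
  · have h1 : (v₂ - 1) / 2 ^ b ≤ v₁ / 2 ^ b + (v₂ - v₁) / 2 ^ b + 1 := by
      have hB : 0 < 2 ^ b := by positivity
      generalize 2 ^ b = B at hB
      have e1 := Nat.div_add_mod v₁ B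
      have e2 := Nat.div_add_mod (v₂ - v₁) B
      have m1 := Nat.mod_lt v₁ hB
      have m2 := Nat.mod_lt (v₂ - v₁) hB
      have : (v₂ - 1) / B < v₁ / B + (v₂ - v₁) / B + 2 := by
        rw [Nat.div_lt_iff_lt_mul hB]
        have : (v₁ / B + (v₂ - v₁) / B + 2) * B = B * (v₁ / B) + B * ((v₂ - v₁) / B) + 2 * B := by
          ring
        rw [this]
        omega
      omega
    generalize (v₂ - 1) / 2 ^ b = x at h1 ⊢
    generalize v₁ / 2 ^ b = y at h1 ⊢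
    generalize (v₂ - v₁) / 2 ^ b = z at h1 ⊢
    omega
  · have h1 : (v₂ - 1) / 2 ^ b ≤ v₁ / 2 ^ b := Nat.div_le_div_right (by omega)
    generalize (v₂ - 1) / 2 ^ b = x at h1 ⊢
    generalize v₁ / 2 ^ b = y at h1 ⊢
    generalize (v₂ - v₁) / 2 ^ b = z
    omega

/-- upper bound for the number of points in a rectangle -/
lemma cnt_le (L p₁ p₂ v₁ v₂ : ℕ) (hp : p₁ < p₂) (hpL : p₂ - p₁ ≤ 2 ^ L) :
    cnt L p₁ p₂ v₁ v₂ * 2 ^ L ≤ 4 * 2 ^ L + 4 * ((p₂ - p₁) * (v₂ - v₁)) := by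
  obtain ⟨a, ha⟩ : ∃ a, a = Nat.clog 2 (p₂ - p₁) := ⟨_, rfl⟩
  have h1 : p₂ - p₁ ≤ 2 ^ a := by rw [ha]; exact Nat.le_pow_clog (by norm_num) _
  have h2 : 2 ^ a ≤ 2 * (p₂ - p₁) := by
    rcases Nat.eq_zero_or_pos a with h0 | h0
    · rw [h0]; simp; omega
    · have : 2 ^ (a - 1) < p₂ - p₁ := by
        rw [ha]
        apply Nat.pow_pred_clog_lt_self (by norm_num)
        by_contra hcon
        have : p₂ - p₁ ≤ 1 := by omega
        rw [Nat.clog_of_right_le_one this] at ha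
        omega
      have e : 2 ^ a = 2 ^ (a - 1) * 2 := by
        rw [← pow_succ]; congr 1; omega
      omega
  have haL : a ≤ L := by
    rw [ha]
    exact (Nat.clog_le_iff_le_pow (by norm_num)).2 hpL
  obtain ⟨b, rfl⟩ := Nat.exists_eq_add_of_le haL
  have hsub : (Ico p₁ p₂).filter (fun p => v₁ ≤ rev (a + b) p ∧ rev (a + b) p < v₂) ⊆
      ((Ico (p₁ / 2 ^ a * 2 ^ a) ((p₁ / 2 ^ a + 1) * 2 ^ a)).filter
        (fun p => v₁ ≤ rev (a + b) p ∧ rev (a + b) p < v₂)) ∪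
      ((Ico ((p₁ / 2 ^ a + 1) * 2 ^ a) ((p₁ / 2 ^ a + 1 + 1) * 2 ^ a)).filter
        (fun p => v₁ ≤ rev (a + b) p ∧ rev (a + b) p < v₂)) := by
    intro p hp'
    simp only [mem_filter, mem_Ico, mem_union] at hp' ⊢
    have e := Nat.div_add_mod p₁ (2 ^ a)
    have m := Nat.mod_lt p₁ (show 0 < 2 ^ a by positivity)
    have e1 : p₁ / 2 ^ a * 2 ^ a = 2 ^ a * (p₁ / 2 ^ a) := mul_comm _ _
    have e2 : (p₁ / 2 ^ a + 1) * 2 ^ a = 2 ^ a * (p₁ / 2 ^ a) + 2 ^ a := by ring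
    have e3 : (p₁ / 2 ^ a + 1 + 1) * 2 ^ a = 2 ^ a * (p₁ / 2 ^ a) + 2 ^ a + 2 ^ a := by ring
    rw [e1, e2, e3]
    by_cases hh : p < 2 ^ a * (p₁ / 2 ^ a) + 2 ^ a
    · left; refine ⟨⟨by omega, hh⟩, hp'.2⟩
    · right; refine ⟨⟨by omega, by omega⟩, hp'.2⟩
  have hc : cnt (a + b) p₁ p₂ v₁ v₂ ≤ 2 * ((v₂ - v₁) / 2 ^ b + 2) := by
    unfold cnt
    refine (card_le_card hsub).trans ((card_union_le _ _).trans ?_)
    have := cnt_block_le a b (p₁ / 2 ^ a) v₁ v₂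
    have := cnt_block_le a b (p₁ / 2 ^ a + 1) v₁ v₂
    omega
  have h3 : (v₂ - v₁) / 2 ^ b * 2 ^ b ≤ v₂ - v₁ := Nat.div_mul_le_self _ _
  calc cnt (a + b) p₁ p₂ v₁ v₂ * 2 ^ (a + b)
      ≤ (2 * ((v₂ - v₁) / 2 ^ b + 2)) * 2 ^ (a + b) := Nat.mul_le_mul_right _ hc
    _ = 4 * 2 ^ (a + b) + 2 * (2 ^ a * ((v₂ - v₁) / 2 ^ b * 2 ^ b)) := by rw [pow_add]; ring
    _ ≤ 4 * 2 ^ (a + b) + 2 * ((2 * (p₂ - p₁)) * (v₂ - v₁)) := by gcongr
    _ = 4 * 2 ^ (a + b) + 4 * ((p₂ - p₁) * (v₂ - v₁)) := by ring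

/-- lower bound for the number of points in a large rectangle -/
lemma le_cnt (L p₁ p₂ v₁ v₂ : ℕ) (hp : p₁ ≤ p₂) (hpL : p₂ ≤ 2 ^ L) (hv : v₁ ≤ v₂)
    (hvL : v₂ ≤ 2 ^ L) (hbig : 16 * 2 ^ L ≤ (p₂ - p₁) * (v₂ - v₁)) :
    (p₂ - p₁) * (v₂ - v₁) ≤ 8 * 2 ^ L * cnt L p₁ p₂ v₁ v₂ := by
  have hpos : 0 < 2 ^ L := by positivity
  have hℓ : 16 ≤ p₂ - p₁ := by
    by_contra hcon
    have h1 : (p₂ - p₁) * (v₂ - v₁) ≤ 15 * 2 ^ L := Nat.mul_le_mul (by omega) (by omega)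
    omega
  -- choose the dyadic size
  obtain ⟨a, ha⟩ : ∃ a, a + 1 = Nat.log 2 (p₂ - p₁ + 1) := by
    refine ⟨Nat.log 2 (p₂ - p₁ + 1) - 1, ?_⟩
    have : 4 ≤ Nat.log 2 (p₂ - p₁ + 1) := by
      apply Nat.le_log_of_pow_le (by norm_num)
      omega
    omega
  have h1 : 2 ^ (a + 1) ≤ p₂ - p₁ + 1 := by
    rw [ha]; exact Nat.pow_log_le_self 2 (by omega)
  have h2 : p₂ - p₁ + 1 < 2 ^ (a + 1 + 1) := by
    rw [ha]; exact Nat.lt_pow_succ_log_self (by norm_num) _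
  have h1' : 2 * 2 ^ a ≤ p₂ - p₁ + 1 := by rw [pow_succ] at h1; omega
  have h2' : p₂ - p₁ + 1 < 4 * 2 ^ a := by rw [pow_succ, pow_succ] at h2; omega
  have haL : a ≤ L := by
    by_contra hcon
    have : 2 ^ (L + 1) ≤ 2 ^ a := Nat.pow_le_pow_right (by norm_num) (by omega)
    rw [pow_succ] at this
    omega
  obtain ⟨b, rfl⟩ := Nat.exists_eq_add_of_le haL
  have hA : 0 < 2 ^ a := by positivity
  have hB : 0 < 2 ^ b := by positivity
  -- block of positions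
  obtain ⟨u, hu⟩ : ∃ u, u = (p₁ + (2 ^ a - 1)) / 2 ^ a := ⟨_, rfl⟩
  have hu1 : p₁ ≤ u * 2 ^ a := by
    have e := Nat.div_add_mod (p₁ + (2 ^ a - 1)) (2 ^ a)
    have m := Nat.mod_lt (p₁ + (2 ^ a - 1)) hA
    rw [← hu] at e
    have : u * 2 ^ a = 2 ^ a * u := mul_comm _ _
    omega
  have hu2 : (u + 1) * 2 ^ a ≤ p₂ := by
    have e := Nat.div_add_mod (p₁ + (2 ^ a - 1)) (2 ^ a)
    rw [← hu] at e
    have : (u + 1) * 2 ^ a = 2 ^ a * u + 2 ^ a := by ring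
    omega
  -- the values of t
  set lo := (v₁ + (2 ^ b - 1)) / 2 ^ b with hlo
  set hi := v₂ / 2 ^ b with hhi
  have hsize : (v₂ - v₁) ≤ (hi - lo + 2) * 2 ^ b := by
    have e := Nat.div_add_mod (v₁ + (2 ^ b - 1)) (2 ^ b)
    have m := Nat.mod_lt (v₁ + (2 ^ b - 1)) hB
    have e' := Nat.div_add_mod v₂ (2 ^ b)
    have m' := Nat.mod_lt v₂ hB
    rw [← hlo] at e
    rw [← hhi] at e'
    by_cases hlh : lo ≤ hi
    · have : (hi - lo + 2) * 2 ^ b + 2 ^ b * lo = 2 ^ b * hi + 2 * 2 ^ b := by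
        obtain ⟨d, hd⟩ := Nat.exists_eq_add_of_le hlh
        rw [hd]; simp; ring
      omega
    · have : hi - lo = 0 := by omega
      rw [this]
      have h5 : 2 ^ b * (hi + 1) ≤ 2 ^ b * lo := Nat.mul_le_mul_left _ (by omega)
      have h6 : 2 ^ b * (hi + 1) = 2 ^ b * hi + 2 ^ b := by ring
      omega
  have hcount : hi - lo ≤ cnt (a + b) p₁ p₂ v₁ v₂ := by
    unfold cnt
    have : hi - lo = (Ico lo hi).card := by simp
    rw [this]
    refine card_le_card_of_injOn (fun t => u * 2 ^ a + rev a t) ?_ ?_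
    · intro t ht
      simp only [coe_Ico, Set.mem_Ico] at ht
      have ht2 : t < 2 ^ a := by
        have : hi ≤ 2 ^ a := by
          rw [hhi]
          apply Nat.div_le_of_le_mul
          rw [mul_comm, ← pow_add]; exact hvL
        omega
      have hblk := rev_block a b u t ht2
      have hr := rev_lt a t
      simp only [coe_filter, mem_Ico, Set.mem_ofPred_eq]
      have hexp : (u + 1) * 2 ^ a = u * 2 ^ a + 2 ^ a := by ring
      refine ⟨⟨by omega, by omega⟩, ?_, ?_⟩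
      · -- v₁ ≤ t * 2^b ≤ rev
        have h7 : t * 2 ^ b ≤ rev (a + b) (u * 2 ^ a + rev a t) := by
          have := Nat.div_mul_le_self (rev (a + b) (u * 2 ^ a + rev a t)) (2 ^ b)
          rwa [hblk.2] at this
        have h8 : lo * 2 ^ b ≤ t * 2 ^ b := Nat.mul_le_mul_right _ ht.1
        have e := Nat.div_add_mod (v₁ + (2 ^ b - 1)) (2 ^ b)
        have m := Nat.mod_lt (v₁ + (2 ^ b - 1)) hB
        rw [← hlo] at e
        have : lo * 2 ^ b = 2 ^ b * lo := mul_comm _ _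
        omega
      · have h7 : rev (a + b) (u * 2 ^ a + rev a t) < (t + 1) * 2 ^ b := by
          have := Nat.lt_succ_iff.2 (le_of_eq hblk.2)
          exact (Nat.div_lt_iff_lt_mul hB).1 this
        have h8 : (t + 1) * 2 ^ b ≤ hi * 2 ^ b := Nat.mul_le_mul_right _ (by omega)
        have h9 : hi * 2 ^ b ≤ v₂ := Nat.div_mul_le_self _ _
        omega
    · intro t ht t' ht' h
      simp only [coe_Ico, Set.mem_Ico] at ht ht'
      have hhi2 : hi ≤ 2 ^ a := by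
        rw [hhi]
        apply Nat.div_le_of_le_mul
        rw [mul_comm, ← pow_add]; exact hvL
      have e1 := (rev_block a b u t (by omega)).2
      have e2 := (rev_block a b u t' (by omega)).2
      simp only at h
      rw [← e1, ← e2, h]
  -- conclusion
  set X := cnt (a + b) p₁ p₂ v₁ v₂
  have k1 : (v₂ - v₁) ≤ (X + 2) * 2 ^ b :=
    hsize.trans (Nat.mul_le_mul_right _ (by omega))
  have k2 : (p₂ - p₁) * (v₂ - v₁) ≤ (4 * 2 ^ a) * ((X + 2) * 2 ^ b) :=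
    Nat.mul_le_mul (by omega) k1
  have k3 : (4 * 2 ^ a) * ((X + 2) * 2 ^ b) = 4 * 2 ^ (a + b) * X + 8 * 2 ^ (a + b) := by
    rw [pow_add]; ring
  rw [k3] at k2
  have k4 : 8 * 2 ^ (a + b) * X = 4 * 2 ^ (a + b) * X + 4 * 2 ^ (a + b) * X := by ring
  rw [k4]
  have k5 : 8 * 2 ^ (a + b) ≤ 4 * 2 ^ (a + b) * X := by
    have : 16 * 2 ^ (a + b) ≤ 4 * 2 ^ (a + b) * X + 8 * 2 ^ (a + b) := hbig.trans k2
    omega
  omega

end Pool.Agent.Helper18.BitRev
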