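import Mathlib

/-!
Local witnesses (heavy combinatorial rectangles of cells) and the bound for the weighted number
of witnesses through a given cell.
-/

open Finset

namespace Pool.Agent.Helper18.Local

set_option linter.unusedSectionVars false

variable {ι : Type*} [Fintype ι] [DecidableEq ι]

/-- rows that are heavy for the set `A` of columns at scale `k + l` -/
def cand (y : ι → ι → ℕ) (L k l : ℕ) (A : Finset ι) : Finset ι :=
  univ.filter (fun j => A.card * 2 ^ L ≤ 8 * 2 ^ (k + l) * ∑ i ∈ A, y i j)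

/-- admissible pairs (columns, rows) -/
def adm (y : ι → ι → ℕ) (L k l : ℕ) (A B : Finset ι) : Prop :=
  30 ≤ k ∧ k ≤ l ∧ 2 ^ (k / 2) ≤ A.card ∧ 2 ^ (l / 2) ≤ B.card ∧
  (∀ i ∈ A, ∀ j ∈ B, 2 ^ L ≤ 8 * 2 ^ (k + l) * y i j) ∧
  B ⊆ cand y L k l A ∧ 2 ^ 30 * (cand y L k l A).card ≤ 2560 * 2 ^ k * B.card

lemma pow_half_ge (k : ℕ) (hk : 30 ≤ k) : 16 * (2 * k + 1) ≤ 2 ^ (k / 2) := by
  obtain ⟨m, hm⟩ : ∃ m, k / 2 = 15 + m := ⟨k / 2 - 15, by omega⟩
  have h1 : k ≤ 2 * (15 + m) + 1 := by omega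
  rw [hm]
  have : ∀ m : ℕ, 16 * (2 * (2 * (15 + m) + 1) + 1) ≤ 2 ^ (15 + m) := by
    intro m
    induction m with
    | zero => norm_num
    | succ m ih =>
      have e : 2 ^ (15 + (m + 1)) = 2 * 2 ^ (15 + m) := by
        rw [show 15 + (m + 1) = (15 + m) + 1 by ring, pow_succ]; ring
      rw [e]; omega
  have := this m
  omega

lemma self_pow_le (b : ℕ) : b ^ b ≤ 3 ^ b * b.factorial := by
  have h := Real.pow_div_factorial_le_exp (b : ℝ) (by positivity) b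
  have hpos : (0 : ℝ) < b.factorial := by exact_mod_cast Nat.factorial_pos b
  rw [div_le_iff₀ hpos] at h
  have h3 : Real.exp (b : ℝ) ≤ 3 ^ b := by
    have : Real.exp (b : ℝ) = (Real.exp 1) ^ b := by
      rw [← Real.exp_nat_mul]; ring_nf
    rw [this]
    have := Real.exp_one_lt_d9
    gcongr
    linarith
  have : ((b ^ b : ℕ) : ℝ) ≤ ((3 ^ b * b.factorial : ℕ) : ℝ) := by
    push_cast
    exact h.trans (by gcongr)
  exact_mod_cast this

lemma choose_mul_le (G b : ℕ) : (G * b).choose b ≤ (3 * G) ^ b := by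
  have h1 : b.factorial * (G * b).choose b ≤ (G * b) ^ b := by
    rw [← Nat.descFactorial_eq_factorial_mul_choose]
    exact Nat.descFactorial_le_pow _ _
  have h2 : (G * b) ^ b ≤ b.factorial * (3 * G) ^ b := by
    rw [mul_pow, mul_pow]
    calc G ^ b * b ^ b ≤ G ^ b * (3 ^ b * b.factorial) := Nat.mul_le_mul_left _ (self_pow_le b)
      _ = b.factorial * (3 ^ b * G ^ b) := by ring
  exact Nat.le_of_mul_le_mul_left (h1.trans h2) (Nat.factorial_pos b)

lemma choose_bound (M k b : ℕ) (hk : 30 ≤ k) (h : 2 ^ 30 * M ≤ 2560 * 2 ^ k * b) :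
    M.choose b ≤ 2 ^ (k * b) := by
  obtain ⟨m, rfl⟩ := Nat.exists_eq_add_of_le hk
  have hM : M ≤ (2560 * 2 ^ m) * b := by
    have e : 2560 * 2 ^ (30 + m) * b = 2 ^ 30 * (2560 * 2 ^ m * b) := by rw [pow_add]; ring
    rw [e] at h
    exact Nat.le_of_mul_le_mul_left h (by positivity)
  calc M.choose b ≤ ((2560 * 2 ^ m) * b).choose b := Nat.choose_le_choose b hM
    _ ≤ (3 * (2560 * 2 ^ m)) ^ b := choose_mul_le _ _
    _ ≤ (2 ^ (30 + m)) ^ b := by
        apply Nat.pow_le_pow_left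
        rw [pow_add]
        have : 3 * (2560 * 2 ^ m) = 7680 * 2 ^ m := by ring
        rw [this]
        exact Nat.mul_le_mul_right _ (by norm_num)
    _ = 2 ^ ((30 + m) * b) := by rw [pow_mul]

lemma two_thirds_pow (m t : ℕ) (h : 2 * t ≤ m) : ((2 : ℝ) / 3) ^ m ≤ (1 / 2) ^ t := by
  calc ((2 : ℝ) / 3) ^ m ≤ ((2 : ℝ) / 3) ^ (2 * t) :=
        pow_le_pow_of_le_one (by norm_num) (by norm_num) h
    _ = (((2 : ℝ) / 3) ^ 2) ^ t := by rw [pow_mul]
    _ ≤ (1 / 2) ^ t := by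
        apply pow_le_pow_left₀ (by norm_num)
        norm_num

/-- weight comparison -/
lemma weight_le (k l a b : ℕ) (hk : 30 ≤ k) (hkl : k ≤ l) (ha : 2 ^ (k / 2) ≤ a)
    (hb : 2 ^ (l / 2) ≤ b) :
    ((2 : ℝ) / 3) ^ (a * b - 1) ≤
      (1 / 2) ^ (k + l + 10) * ((1 / 2) ^ ((2 * l + 1) * a) * (1 / 2) ^ ((k + 1) * b)) := by
  rw [← pow_add, ← pow_add]
  apply two_thirds_pow
  have ha' : 16 * (2 * k + 1) ≤ a := (pow_half_ge k hk).trans ha
  have hb' : 16 * (2 * l + 1) ≤ b := (pow_half_ge l (hk.trans hkl)).trans hb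
  have h1 : a * (16 * (2 * l + 1)) ≤ a * b := Nat.mul_le_mul_left _ hb'
  have h2 : (16 * (2 * k + 1)) * b ≤ a * b := Nat.mul_le_mul_right _ ha'
  have h3 : a * (16 * (2 * l + 1)) = 16 * ((2 * l + 1) * a) := by ring
  have h4 : (16 * (2 * k + 1)) * b = 16 * ((k + 1) * b) + 16 * (k * b) := by ring
  have h5 : (2 * l + 1) * 1 ≤ (2 * l + 1) * a := Nat.mul_le_mul_left _ (by omega)
  rw [h3] at h1
  rw [h4] at h2
  generalize (2 * l + 1) * a = P at h1 h5 ⊢
  generalize (k + 1) * b = Q at h2 ⊢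
  generalize a * b = R at h1 h2 ⊢
  omega

/-- sum over the set of columns -/
lemma sum_cols (H : Finset ι) (l : ℕ) (hH : H.card ≤ 2 ^ (2 * l)) :
    ∑ A ∈ H.powerset, ((1 : ℝ) / 2) ^ ((2 * l + 1) * A.card) ≤ 2 := by
  have h1 : ∑ A ∈ H.powerset, ((1 : ℝ) / 2) ^ ((2 * l + 1) * A.card)
      = (((1 : ℝ) / 2) ^ (2 * l + 1) + 1) ^ H.card := by
    rw [← Finset.sum_pow_mul_eq_add_pow]
    refine sum_congr rfl (fun A _ => ?_)
    rw [one_pow, mul_one, pow_mul]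
  rw [h1]
  have h2 : ((1 : ℝ) / 2) ^ (2 * l + 1) + 1 ≤ Real.exp (((1 : ℝ) / 2) ^ (2 * l + 1)) :=
    Real.add_one_le_exp _
  calc (((1 : ℝ) / 2) ^ (2 * l + 1) + 1) ^ H.card
      ≤ (Real.exp (((1 : ℝ) / 2) ^ (2 * l + 1))) ^ H.card := by gcongr
    _ = Real.exp (H.card * ((1 : ℝ) / 2) ^ (2 * l + 1)) := by rw [Real.exp_nat_mul]
    _ ≤ Real.exp (1 / 2) := by
        apply Real.exp_le_exp.2
        have : (H.card : ℝ) ≤ 2 ^ (2 * l) := by exact_mod_cast hH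
        calc (H.card : ℝ) * (1 / 2) ^ (2 * l + 1) ≤ 2 ^ (2 * l) * (1 / 2) ^ (2 * l + 1) := by
              gcongr
          _ = 1 / 2 := by
              rw [pow_succ, ← mul_assoc, ← mul_pow]; norm_num
    _ ≤ 2 := by
        have h := Real.exp_one_lt_d9
        have h' : Real.exp (1 / 2) * Real.exp (1 / 2) = Real.exp 1 := by
          rw [← Real.exp_add]; norm_num
        have h'' := Real.exp_pos (1 / 2 : ℝ)
        nlinarith

lemma geom_half (m : ℕ) : ∑ b ∈ range m, ((1 : ℝ) / 2) ^ b ≤ 2 := by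
  have := geom_sum_Ico_le_of_lt_one (K := ℝ) (x := 1 / 2) (m := 0) (n := m) (by norm_num)
    (by norm_num)
  rw [range_eq_Ico]
  norm_num at this ⊢
  linarith

/-- sum over the set of rows -/
lemma sum_rows (C : Finset ι) (k : ℕ) (hk : 30 ≤ k) :
    ∑ B ∈ C.powerset.filter (fun B => 2 ^ 30 * C.card ≤ 2560 * 2 ^ k * B.card),
      ((1 : ℝ) / 2) ^ ((k + 1) * B.card) ≤ 2 := by
  rw [sum_filter]
  have h1 : ∑ B ∈ C.powerset, (if 2 ^ 30 * C.card ≤ 2560 * 2 ^ k * B.card then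
      ((1 : ℝ) / 2) ^ ((k + 1) * B.card) else 0)
      = ∑ b ∈ range (C.card + 1), (C.card).choose b •
        (if 2 ^ 30 * C.card ≤ 2560 * 2 ^ k * b then ((1 : ℝ) / 2) ^ ((k + 1) * b) else 0) := by
    exact Finset.sum_powerset_apply_card
      (fun b => if 2 ^ 30 * C.card ≤ 2560 * 2 ^ k * b then ((1 : ℝ) / 2) ^ ((k + 1) * b) else 0)
  rw [h1]
  refine le_trans (sum_le_sum (fun b _ => ?_)) (geom_half (C.card + 1))
  split_ifs with h
  · have h2 := choose_bound C.card k b hk h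
    have h3 : ((C.card.choose b : ℕ) : ℝ) ≤ 2 ^ (k * b) := by exact_mod_cast h2
    rw [nsmul_eq_mul]
    calc ((C.card.choose b : ℕ) : ℝ) * (1 / 2) ^ ((k + 1) * b)
        ≤ 2 ^ (k * b) * (1 / 2) ^ ((k + 1) * b) := by gcongr
      _ = (1 / 2) ^ b := by
          have : (k + 1) * b = k * b + b := by ring
          rw [this, pow_add, ← mul_assoc, ← mul_pow]; norm_num
  · simp

/-- heavy columns in a row -/
lemma heavy_card (y : ι → ι → ℕ) (L k l : ℕ) (hL : 30 ≤ L) (hkl : k ≤ l) (j : ι)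
    (hcol : ∑ i, y i j ≤ 2 ^ (L - 30)) :
    (univ.filter (fun i => 2 ^ L ≤ 8 * 2 ^ (k + l) * y i j)).card ≤ 2 ^ (2 * l) := by
  set H := univ.filter (fun i => 2 ^ L ≤ 8 * 2 ^ (k + l) * y i j) with hH
  have h1 : H.card * 2 ^ L ≤ 8 * 2 ^ (k + l) * 2 ^ (L - 30) := by
    calc H.card * 2 ^ L = ∑ _i ∈ H, 2 ^ L := by rw [sum_const, smul_eq_mul]
      _ ≤ ∑ i ∈ H, 8 * 2 ^ (k + l) * y i j := sum_le_sum (fun i hi => (mem_filter.1 hi).2)
      _ = 8 * 2 ^ (k + l) * ∑ i ∈ H, y i j := by rw [mul_sum]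
      _ ≤ 8 * 2 ^ (k + l) * ∑ i, y i j :=
          Nat.mul_le_mul_left _ (sum_le_sum_of_subset (subset_univ _))
      _ ≤ 8 * 2 ^ (k + l) * 2 ^ (L - 30) := Nat.mul_le_mul_left _ hcol
  have h2 : 8 * 2 ^ (k + l) * 2 ^ (L - 30) ≤ 2 ^ (2 * l) * 2 ^ L := by
    calc 8 * 2 ^ (k + l) * 2 ^ (L - 30) = 2 ^ 3 * 2 ^ (k + l) * 2 ^ (L - 30) := by norm_num
      _ = 2 ^ (3 + (k + l) + (L - 30)) := by rw [← pow_add, ← pow_add]
      _ ≤ 2 ^ (2 * l + L) := Nat.pow_le_pow_right (by norm_num) (by omega)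
      _ = 2 ^ (2 * l) * 2 ^ L := by rw [pow_add]
  exact Nat.le_of_mul_le_mul_right (h1.trans h2) (by positivity)

open Classical in
/-- the weighted number of admissible pairs through a cell, at a fixed scale -/
lemma sum_scale (y : ι → ι → ℕ) (L k l : ℕ) (hL : 30 ≤ L) (i₀ j₀ : ι)
    (hcol : ∀ j, ∑ i, y i j ≤ 2 ^ (L - 30)) :
    ∑ P ∈ (univ : Finset (Finset ι × Finset ι)).filter
        (fun P => adm y L k l P.1 P.2 ∧ i₀ ∈ P.1 ∧ j₀ ∈ P.2),
      ((2 : ℝ) / 3) ^ (P.1.card * P.2.card - 1) ≤ (1 / 2) ^ (k + l + 8) := by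
  by_cases hkl : 30 ≤ k ∧ k ≤ l
  · obtain ⟨hk, hkl⟩ := hkl
    set H := univ.filter (fun i => 2 ^ L ≤ 8 * 2 ^ (k + l) * y i j₀) with hH
    have hHc : H.card ≤ 2 ^ (2 * l) := heavy_card y L k l hL hkl j₀ (hcol j₀)
    calc ∑ P ∈ (univ : Finset (Finset ι × Finset ι)).filter
            (fun P => adm y L k l P.1 P.2 ∧ i₀ ∈ P.1 ∧ j₀ ∈ P.2),
          ((2 : ℝ) / 3) ^ (P.1.card * P.2.card - 1)
        ≤ ∑ P ∈ (univ : Finset (Finset ι × Finset ι)).filter
            (fun P => adm y L k l P.1 P.2 ∧ i₀ ∈ P.1 ∧ j₀ ∈ P.2),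
          (1 / 2) ^ (k + l + 10) * ((1 / 2) ^ ((2 * l + 1) * P.1.card)
            * (1 / 2) ^ ((k + 1) * P.2.card)) := by
          refine sum_le_sum (fun P hP => ?_)
          obtain ⟨-, hadm, -, -⟩ := mem_filter.1 hP
          exact weight_le k l _ _ hk hkl hadm.2.2.1 hadm.2.2.2.1
      _ ≤ ∑ P ∈ H.powerset.sigma (fun A => (cand y L k l A).powerset.filter
            (fun B => 2 ^ 30 * (cand y L k l A).card ≤ 2560 * 2 ^ k * B.card)),
          (1 / 2 : ℝ) ^ (k + l + 10) * ((1 / 2) ^ ((2 * l + 1) * P.1.card)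
            * (1 / 2) ^ ((k + 1) * P.2.card)) := by
          let g : Finset ι × Finset ι → (Σ _ : Finset ι, Finset ι) := fun P => ⟨P.1, P.2⟩
          have hinj : Set.InjOn g (((univ : Finset (Finset ι × Finset ι)).filter
            (fun P => adm y L k l P.1 P.2 ∧ i₀ ∈ P.1 ∧ j₀ ∈ P.2) :
              Finset (Finset ι × Finset ι)) : Set (Finset ι × Finset ι)) := by
            intro P _ Q _ h
            simp only [g, Sigma.mk.injEq, heq_eq_eq] at h
            exact Prod.ext h.1 h.2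
          rw [← sum_image (f := fun Q : (Σ _ : Finset ι, Finset ι) =>
            (1 / 2 : ℝ) ^ (k + l + 10) * ((1 / 2) ^ ((2 * l + 1) * Q.1.card)
            * (1 / 2) ^ ((k + 1) * Q.2.card))) hinj]
          refine sum_le_sum_of_subset_of_nonneg ?_ (fun _ _ _ => by positivity)
          intro Q hQ
          obtain ⟨P, hP, rfl⟩ := mem_image.1 hQ
          obtain ⟨-, hadm, -, hj⟩ := mem_filter.1 hP
          obtain ⟨-, -, -, -, hy, hB, hc⟩ := hadm
          refine mem_sigma.2 ⟨?_, ?_⟩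
          · refine mem_powerset.2 (fun i hi => mem_filter.2 ⟨mem_univ _, hy i hi j₀ hj⟩)
          · exact mem_filter.2 ⟨mem_powerset.2 hB, hc⟩
      _ = (1 / 2 : ℝ) ^ (k + l + 10) * ∑ A ∈ H.powerset, ((1 / 2) ^ ((2 * l + 1) * A.card) *
            ∑ B ∈ (cand y L k l A).powerset.filter
            (fun B => 2 ^ 30 * (cand y L k l A).card ≤ 2560 * 2 ^ k * B.card),
              (1 / 2) ^ ((k + 1) * B.card)) := by
          rw [sum_sigma, mul_sum]
          refine sum_congr rfl (fun A _ => ?_)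
          rw [mul_sum, mul_sum]
      _ ≤ (1 / 2 : ℝ) ^ (k + l + 10) * ∑ A ∈ H.powerset,
            ((1 / 2) ^ ((2 * l + 1) * A.card) * 2) := by
          gcongr with A _
          exact sum_rows (cand y L k l A) k hk
      _ = (1 / 2 : ℝ) ^ (k + l + 10) * ((∑ A ∈ H.powerset,
            (1 / 2) ^ ((2 * l + 1) * A.card)) * 2) := by rw [sum_mul]
      _ ≤ (1 / 2 : ℝ) ^ (k + l + 10) * (2 * 2) := by
          gcongr
          exact sum_cols H l hHc
      _ = (1 / 2) ^ (k + l + 8) := by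
          rw [show k + l + 10 = (k + l + 8) + 2 by ring, pow_add]; ring
  · have : (univ : Finset (Finset ι × Finset ι)).filter
        (fun P => adm y L k l P.1 P.2 ∧ i₀ ∈ P.1 ∧ j₀ ∈ P.2) = ∅ := by
      apply filter_eq_empty_iff.2
      intro P _ hP
      exact hkl ⟨hP.1.1, hP.1.2.1⟩
    rw [this, sum_empty]; positivity

open Classical in
/-- total weighted number of admissible pairs through a cell -/
lemma sum_all (y : ι → ι → ℕ) (L : ℕ) (hL : 30 ≤ L) (i₀ j₀ : ι)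
    (hcol : ∀ j, ∑ i, y i j ≤ 2 ^ (L - 30)) (m : ℕ) :
    ∑ k ∈ range m, ∑ l ∈ range m,
      ∑ P ∈ (univ : Finset (Finset ι × Finset ι)).filter
        (fun P => adm y L k l P.1 P.2 ∧ i₀ ∈ P.1 ∧ j₀ ∈ P.2),
      ((2 : ℝ) / 3) ^ (P.1.card * P.2.card - 1) ≤ 1 / 64 := by
  calc ∑ k ∈ range m, ∑ l ∈ range m,
      ∑ P ∈ (univ : Finset (Finset ι × Finset ι)).filter
        (fun P => adm y L k l P.1 P.2 ∧ i₀ ∈ P.1 ∧ j₀ ∈ P.2),
      ((2 : ℝ) / 3) ^ (P.1.card * P.2.card - 1)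
      ≤ ∑ k ∈ range m, ∑ l ∈ range m, ((1 / 2 : ℝ) ^ k * (1 / 2) ^ l * (1 / 2) ^ 8) := by
        refine sum_le_sum (fun k _ => sum_le_sum (fun l _ => ?_))
        have := sum_scale y L k l hL i₀ j₀ hcol
        rwa [pow_add, pow_add] at this
    _ = (∑ k ∈ range m, (1 / 2 : ℝ) ^ k) * (∑ l ∈ range m, (1 / 2 : ℝ) ^ l) * (1 / 2) ^ 8 := by
        rw [sum_mul_sum, sum_mul]
        refine sum_congr rfl (fun k _ => by rw [sum_mul])
    _ ≤ 2 * 2 * (1 / 2) ^ 8 := by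
        have h1 := geom_half m
        have h0 : (0 : ℝ) ≤ ∑ k ∈ range m, (1 / 2 : ℝ) ^ k := sum_nonneg (fun _ _ => by positivity)
        gcongr
    _ = 1 / 64 := by norm_num

end Pool.Agent.Helper18.Local
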