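import Mathlib

/-!
Weighted two-colouring lemma for hypergraphs, by Rosenfeld's counting argument.
-/

open Finset

namespace Pool.Agent.Helper18.PropB

variable {V : Type*} [DecidableEq V]

/-- The red sets `R ⊆ X` such that no edge contained in `X` is monochromatic. -/
def good (E : Finset (Finset V)) (X : Finset V) : Finset (Finset V) :=
  X.powerset.filter (fun R => ∀ W ∈ E, W ⊆ X → ¬ (W ⊆ R) ∧ ¬ (Disjoint W R))

lemma mem_good {E : Finset (Finset V)} {X R : Finset V} :
    R ∈ good E X ↔ R ⊆ X ∧ ∀ W ∈ E, W ⊆ X → ¬ (W ⊆ R) ∧ ¬ (Disjoint W R) := by
  simp [good]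

/-- colour the new vertex -/
def ext (v : V) (t : Finset V × Bool) : Finset V := if t.2 then insert v t.1 else t.1

lemma ext_inj {v : V} {s t : Finset V × Bool} (hs : v ∉ s.1) (ht : v ∉ t.1)
    (h : ext v s = ext v t) : s = t := by
  obtain ⟨R, b⟩ := s
  obtain ⟨S, c⟩ := t
  simp only [ext] at *
  cases b <;> cases c <;> simp at *
  · exact h
  · exact absurd (h ▸ mem_insert_self v S) hs
  · exact absurd (h.symm ▸ mem_insert_self v R) ht
  · have := congrArg (fun A => A.erase v) h
    simpa [erase_insert hs, erase_insert ht] using this

lemma count_step (E : Finset (Finset V)) (X : Finset V) (v : V) (hv : v ∉ X) :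
    2 * (good E X).card ≤ (good E (insert v X)).card
      + ∑ W ∈ E.filter (fun W => v ∈ W ∧ W ⊆ insert v X), 2 * (good E (X \ W)).card := by
  classical
  set T : Finset (Finset V × Bool) := (good E X) ×ˢ (univ : Finset Bool) with hT
  have hcard : T.card = 2 * (good E X).card := by
    rw [hT, card_product]; simp [mul_comm]
  have hvT : ∀ t ∈ T, v ∉ t.1 := by
    intro t ht hvt
    have := (mem_good.1 (mem_product.1 ht).1).1
    exact hv (this hvt)
  rw [← hcard]
  have hsub : T ⊆ T.filter (fun t => ext v t ∈ good E (insert v X)) ∪
      (E.filter (fun W => v ∈ W ∧ W ⊆ insert v X)).biUnion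
        (fun W => T.filter (fun t => W ⊆ ext v t ∨ Disjoint W (ext v t))) := by
    intro t ht
    by_cases hg : ext v t ∈ good E (insert v X)
    · exact mem_union_left _ (mem_filter.2 ⟨ht, hg⟩)
    · apply mem_union_right
      have h1 : ext v t ⊆ insert v X := by
        have h2 := (mem_good.1 (mem_product.1 ht).1).1
        unfold ext
        split_ifs
        · exact insert_subset_insert v h2
        · exact h2.trans (subset_insert v X)
      rw [mem_good] at hg
      push Not at hg
      obtain ⟨W, hWE, hWX, hmono⟩ := hg h1
      have hmono' : W ⊆ ext v t ∨ Disjoint W (ext v t) := by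
        by_cases h : W ⊆ ext v t
        · exact Or.inl h
        · exact Or.inr (hmono h)
      have hvW : v ∈ W := by
        by_contra hvW
        have hWX' : W ⊆ X := by
          intro x hx
          rcases mem_insert.1 (hWX hx) with h | h
          · exact absurd (h ▸ hx) hvW
          · exact h
        have hgt := (mem_good.1 (mem_product.1 ht).1).2 W hWE hWX'
        rcases hmono' with h | h
        · apply hgt.1
          intro x hx
          have := h hx
          unfold ext at this
          split_ifs at this
          · rcases mem_insert.1 this with h' | h'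
            · exact absurd (h' ▸ hx) hvW
            · exact h'
          · exact this
        · apply hgt.2
          refine disjoint_of_subset_right ?_ h
          unfold ext
          split_ifs
          · exact subset_insert _ _
          · exact Subset.refl _
      refine mem_biUnion.2 ⟨W, mem_filter.2 ⟨hWE, hvW, hWX⟩, mem_filter.2 ⟨ht, hmono'⟩⟩
  refine (card_le_card hsub).trans ((card_union_le _ _).trans ?_)
  refine add_le_add ?_ ?_
  · refine card_le_card_of_injOn (ext v) (fun t ht => (mem_filter.1 ht).2) ?_
    intro s hs t ht h
    exact ext_inj (hvT s (mem_filter.1 hs).1) (hvT t (mem_filter.1 ht).1) h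
  · refine card_biUnion_le.trans (sum_le_sum ?_)
    intro W hW
    obtain ⟨hWE, hvW, hWX⟩ := mem_filter.1 hW
    have : (2 * (good E (X \ W)).card) = ((good E (X \ W)) ×ˢ (univ : Finset Bool)).card := by
      rw [card_product]; simp [mul_comm]
    rw [this]
    refine card_le_card_of_injOn (fun t => (t.1 \ W, t.2)) ?_ ?_
    · intro t ht
      obtain ⟨ht, _⟩ := mem_filter.1 ht
      refine mem_product.2 ⟨?_, mem_univ _⟩
      have h2 := mem_good.1 (mem_product.1 ht).1
      refine mem_good.2 ⟨sdiff_subset_sdiff h2.1 (Subset.refl _), ?_⟩
      intro W' hW' hsub'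
      have h3 := h2.2 W' hW' (hsub'.trans sdiff_subset)
      refine ⟨fun h => h3.1 (h.trans sdiff_subset), fun h => h3.2 ?_⟩
      rw [disjoint_left] at h ⊢
      intro x hx hx'
      exact h hx (mem_sdiff.2 ⟨hx', (mem_sdiff.1 (hsub' hx)).2⟩)
    · intro s hs t ht h
      obtain ⟨hs, hsm⟩ := mem_filter.1 hs
      obtain ⟨ht, htm⟩ := mem_filter.1 ht
      have hvs := hvT s hs
      have hvt := hvT t ht
      have hsX := (mem_good.1 (mem_product.1 hs).1).1
      have htX := (mem_good.1 (mem_product.1 ht).1).1
      obtain ⟨R, b⟩ := s
      obtain ⟨S, c⟩ := t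
      simp only [Prod.mk.injEq] at h
      obtain ⟨h1, h2⟩ := h
      subst h2
      simp only [Prod.mk.injEq, and_true]
      simp only [ext] at hsm htm
      simp only at hvs hvt hsX htX
      cases b
      · simp only [Bool.false_eq_true, if_false] at hsm htm
        have hsm' : Disjoint W R := by
          rcases hsm with h | h
          · exact absurd (h hvW) hvs
          · exact h
        have htm' : Disjoint W S := by
          rcases htm with h | h
          · exact absurd (h hvW) hvt
          · exact h
        rw [sdiff_eq_self_of_disjoint hsm'.symm, sdiff_eq_self_of_disjoint htm'.symm] at h1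
        exact h1
      · simp only [if_true] at hsm htm
        have hsm' : W ⊆ insert v R := by
          rcases hsm with h | h
          · exact h
          · exact absurd (mem_insert_self v R) (disjoint_left.1 h hvW)
        have htm' : W ⊆ insert v S := by
          rcases htm with h | h
          · exact h
          · exact absurd (mem_insert_self v S) (disjoint_left.1 h hvW)
        ext x
        by_cases hxW : x ∈ W
        · by_cases hxv : x = v
          · subst hxv; simp [hvs, hvt]
          · have a1 := hsm' hxW
            have a2 := htm' hxW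
            simp only [mem_insert, hxv, false_or] at a1 a2
            simp [a1, a2]
        · have := congrArg (fun A => x ∈ A) h1
          simpa [hxW] using this

/-- the growth property for all small sets -/
lemma grow (E : Finset (Finset V))
    (hsum : ∀ v : V, ∑ W ∈ E.filter (fun W => v ∈ W), ((2 : ℝ) / 3) ^ (W.card - 1) ≤ 1 / 4) :
    ∀ n : ℕ, ∀ X : Finset V, X.card = n → ∀ v, v ∉ X →
      (3 / 2 : ℝ) * (good E X).card ≤ (good E (insert v X)).card := by
  intro n
  induction n using Nat.strong_induction_on with
  | _ n ih =>
    intro X hX v hv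
    -- chain
    have chain : ∀ Z : Finset V, Z ⊆ X →
        (3 / 2 : ℝ) ^ (X \ Z).card * (good E Z).card ≤ (good E X).card := by
      intro Z
      -- downward induction on the size of X \ Z
      generalize hm : (X \ Z).card = m
      induction m generalizing Z with
      | zero =>
        intro hZ
        have : X \ Z = ∅ := card_eq_zero.1 hm
        have hXZ : X = Z := Subset.antisymm (sdiff_eq_empty_iff_subset.1 this) hZ
        simp [hXZ]
      | succ m ihm =>
        intro hZ
        have hne : (X \ Z).Nonempty := by
          rw [← card_pos, hm]; omega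
        obtain ⟨u, hu⟩ := hne
        obtain ⟨huX, huZ⟩ := mem_sdiff.1 hu
        have hlt : Z.card < n := by
          rw [← hX]
          exact card_lt_card ⟨hZ, fun h => huZ (h huX)⟩
        have h1 := ih Z.card hlt Z rfl u huZ
        have hZ' : insert u Z ⊆ X := insert_subset huX hZ
        have hm' : (X \ insert u Z).card = m := by
          have : X \ insert u Z = (X \ Z).erase u := by
            ext x; simp only [mem_sdiff, mem_insert, mem_erase, not_or]; tauto
          rw [this, card_erase_of_mem hu, hm]; rfl
        have h2 := ihm (insert u Z) hm' hZ'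
        calc (3 / 2 : ℝ) ^ (m + 1) * (good E Z).card
            = (3 / 2 : ℝ) ^ m * ((3 / 2) * (good E Z).card) := by ring
          _ ≤ (3 / 2 : ℝ) ^ m * (good E (insert u Z)).card := by gcongr
          _ ≤ _ := h2
    have hstep := count_step E X v hv
    have hstepR : (2 : ℝ) * (good E X).card ≤ (good E (insert v X)).card
      + ∑ W ∈ E.filter (fun W => v ∈ W ∧ W ⊆ insert v X), 2 * ((good E (X \ W)).card : ℝ) := by
      exact_mod_cast hstep
    have hbound : ∑ W ∈ E.filter (fun W => v ∈ W ∧ W ⊆ insert v X), 2 * ((good E (X \ W)).card : ℝ)
        ≤ (1 / 2) * (good E X).card := by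
      calc ∑ W ∈ E.filter (fun W => v ∈ W ∧ W ⊆ insert v X), 2 * ((good E (X \ W)).card : ℝ)
          ≤ ∑ W ∈ E.filter (fun W => v ∈ W ∧ W ⊆ insert v X),
              2 * (((2 : ℝ) / 3) ^ (W.card - 1) * (good E X).card) := by
            refine sum_le_sum ?_
            intro W hW
            obtain ⟨hWE, hvW, hWX⟩ := mem_filter.1 hW
            have hc := chain (X \ W) sdiff_subset
            have hcard : (X \ (X \ W)).card = W.card - 1 := by
              have : X \ (X \ W) = W.erase v := by
                ext x
                simp only [mem_sdiff, mem_erase]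
                constructor
                · rintro ⟨h1, h2⟩
                  refine ⟨fun h => hv (h ▸ h1), ?_⟩
                  by_contra h3
                  exact h2 ⟨h1, h3⟩
                · rintro ⟨h1, h2⟩
                  refine ⟨?_, fun h => h.2 h2⟩
                  rcases mem_insert.1 (hWX h2) with h | h
                  · exact absurd h h1
                  · exact h
              rw [this, card_erase_of_mem hvW]
            rw [hcard] at hc
            have h23 : ((2 : ℝ) / 3) ^ (W.card - 1) * (3 / 2 : ℝ) ^ (W.card - 1) = 1 := by
              rw [← mul_pow]; norm_num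
            have hpos : (0 : ℝ) ≤ ((2 : ℝ) / 3) ^ (W.card - 1) := by positivity
            have := mul_le_mul_of_nonneg_left hc hpos
            rw [← mul_assoc, h23, one_mul] at this
            linarith
        _ = (2 * (good E X).card) * ∑ W ∈ E.filter (fun W => v ∈ W ∧ W ⊆ insert v X),
              ((2 : ℝ) / 3) ^ (W.card - 1) := by
            rw [mul_sum]; refine sum_congr rfl (fun W _ => by ring)
        _ ≤ (2 * (good E X).card) * (1 / 4) := by
            refine mul_le_mul_of_nonneg_left ?_ (by positivity)
            refine le_trans ?_ (hsum v)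
            refine sum_le_sum_of_subset_of_nonneg ?_ (fun _ _ _ => by positivity)
            intro W hW
            obtain ⟨hWE, hvW, hWX⟩ := mem_filter.1 hW
            exact mem_filter.2 ⟨hWE, hvW⟩
        _ = (1 / 2) * (good E X).card := by ring
    linarith

theorem two_colourable [Fintype V] (E : Finset (Finset V)) (hne : ∅ ∉ E)
    (hsum : ∀ v : V, ∑ W ∈ E.filter (fun W => v ∈ W), ((2 : ℝ) / 3) ^ (W.card - 1) ≤ 1 / 4) :
    ∃ R : Finset V, ∀ W ∈ E, ¬ (W ⊆ R) ∧ ¬ (Disjoint W R) := by
  have key : ∀ X : Finset V, 0 < (good E X).card := by
    intro X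
    induction X using Finset.induction_on with
    | empty =>
      refine card_pos.2 ⟨∅, mem_good.2 ⟨Subset.refl _, ?_⟩⟩
      intro W hW hsub
      exact absurd (subset_empty.1 hsub ▸ hW) hne
    | insert v X hv ih =>
      have h := grow E hsum X.card X rfl v hv
      have : (0 : ℝ) < (good E (insert v X)).card := by
        refine lt_of_lt_of_le ?_ h
        have : (0 : ℝ) < (good E X).card := by exact_mod_cast ih
        positivity
      exact_mod_cast this
  obtain ⟨R, hR⟩ := card_pos.1 (key univ)
  exact ⟨R, fun W hW => (mem_good.1 hR).2 W hW (subset_univ W)⟩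

end Pool.Agent.Helper18.PropB
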