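import Mathlib
import Pool.Agent.Helper18.Local

/-!
Selection of a local witness by pigeonhole over the dyadic scales.
-/

open Finset

namespace Pool.Agent.Helper18.Select

open Pool.Agent.Helper18.Local

set_option linter.unusedSectionVars false

variable {ι : Type*} [Fintype ι] [DecidableEq ι]

/-- indices of weight at least `2^(L-k)` -/
def cls (nn : ι → ℕ) (L k : ℕ) : Finset ι := univ.filter (fun i => 2 ^ L ≤ nn i * 2 ^ k)

/-- normalised size of a scale -/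
noncomputable def al (nn : ι → ℕ) (L k : ℕ) : ℝ := ((cls nn L k).card : ℝ) * (1 / 2) ^ k

lemma al_nonneg (nn : ι → ℕ) (L k : ℕ) : 0 ≤ al nn L k := by unfold al; positivity

lemma tail_sum (u v m : ℕ) (hv : 0 < v) :
    ∑ k ∈ (range m).filter (fun k => v ≤ u * 2 ^ k), ((1 : ℝ) / 2) ^ k ≤ 2 * u / v := by
  by_cases h : ∃ k, v ≤ u * 2 ^ k
  · have hk1 := Nat.find_spec h
    set k1 := Nat.find h with hk1def
    have hsub : (range m).filter (fun k => v ≤ u * 2 ^ k) ⊆ Ico k1 m := by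
      intro k hk
      obtain ⟨hkm, hk⟩ := mem_filter.1 hk
      exact mem_Ico.2 ⟨Nat.find_min' h hk, mem_range.1 hkm⟩
    have h1 : ∑ k ∈ (range m).filter (fun k => v ≤ u * 2 ^ k), ((1 : ℝ) / 2) ^ k
        ≤ (1 / 2) ^ k1 / (1 - 1 / 2) :=
      (sum_le_sum_of_subset_of_nonneg hsub (fun _ _ _ => by positivity)).trans
        (geom_sum_Ico_le_of_lt_one (by norm_num) (by norm_num))
    refine h1.trans ?_
    have hvR : (0 : ℝ) < v := by exact_mod_cast hv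
    rw [le_div_iff₀ hvR]
    have h2 : (v : ℝ) ≤ u * 2 ^ k1 := by exact_mod_cast hk1
    have h3 : ((1 : ℝ) / 2) ^ k1 * 2 ^ k1 = 1 := by rw [← mul_pow]; norm_num
    have h4 : (0 : ℝ) < (1 / 2) ^ k1 := by positivity
    calc (1 / 2 : ℝ) ^ k1 / (1 - 1 / 2) * v = 2 * ((1 / 2 : ℝ) ^ k1 * v) := by ring
      _ ≤ 2 * ((1 / 2 : ℝ) ^ k1 * (u * 2 ^ k1)) := by gcongr
      _ = 2 * u * ((1 / 2 : ℝ) ^ k1 * 2 ^ k1) := by ring
      _ = 2 * u := by rw [h3, mul_one]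
  · have : (range m).filter (fun k => v ≤ u * 2 ^ k) = ∅ :=
      filter_eq_empty_iff.2 (fun k _ hk => h ⟨k, hk⟩)
    rw [this, sum_empty]; positivity

lemma sum_al_le (nn : ι → ℕ) (L m : ℕ) (hn : ∑ i, nn i = 2 ^ L) :
    ∑ k ∈ range m, al nn L k ≤ 2 := by
  have h1 : ∑ k ∈ range m, al nn L k
      = ∑ i, ∑ k ∈ (range m).filter (fun k => 2 ^ L ≤ nn i * 2 ^ k), ((1 : ℝ) / 2) ^ k := by
    have : ∀ k ∈ range m, al nn L k = ∑ i, if 2 ^ L ≤ nn i * 2 ^ k then ((1 : ℝ) / 2) ^ k else 0 := by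
      intro k _
      unfold al cls
      rw [← sum_filter, sum_const, nsmul_eq_mul]
    rw [sum_congr rfl this, sum_comm]
    refine sum_congr rfl (fun i _ => by rw [sum_filter])
  rw [h1]
  have h2 : ∀ i ∈ (univ : Finset ι),
      ∑ k ∈ (range m).filter (fun k => 2 ^ L ≤ nn i * 2 ^ k), ((1 : ℝ) / 2) ^ k
        ≤ 2 * nn i / ((2 ^ L : ℕ) : ℝ) := fun i _ => tail_sum (nn i) (2 ^ L) m (by positivity)
  refine (sum_le_sum h2).trans ?_
  rw [← sum_div, ← mul_sum]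
  have h3 : (∑ i, (nn i : ℝ)) = ((2 ^ L : ℕ) : ℝ) := by exact_mod_cast hn
  rw [h3, mul_div_assoc, div_self (by positivity)]
  norm_num

lemma sum_cand_le (y : ι → ι → ℕ) (L k m : ℕ) (hL : 30 ≤ L) (A : Finset ι) (hA : 0 < A.card)
    (hrow : ∀ i, ∑ j, y i j ≤ 2 ^ (L - 30)) :
    ∑ l ∈ range m, ((cand y L k l A).card : ℝ) * (1 / 2) ^ l ≤ 16 * 2 ^ k / 2 ^ 30 := by
  have h1 : ∑ l ∈ range m, ((cand y L k l A).card : ℝ) * (1 / 2) ^ l
      = ∑ j, ∑ l ∈ (range m).filter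
          (fun l => A.card * 2 ^ L ≤ (8 * 2 ^ k * ∑ i ∈ A, y i j) * 2 ^ l), ((1 : ℝ) / 2) ^ l := by
    have : ∀ l ∈ range m, ((cand y L k l A).card : ℝ) * (1 / 2) ^ l
        = ∑ j, if A.card * 2 ^ L ≤ (8 * 2 ^ k * ∑ i ∈ A, y i j) * 2 ^ l
            then ((1 : ℝ) / 2) ^ l else 0 := by
      intro l _
      have e : cand y L k l A
          = univ.filter (fun j => A.card * 2 ^ L ≤ (8 * 2 ^ k * ∑ i ∈ A, y i j) * 2 ^ l) := by
        unfold cand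
        refine filter_congr (fun j _ => ?_)
        have : 8 * 2 ^ (k + l) * ∑ i ∈ A, y i j = (8 * 2 ^ k * ∑ i ∈ A, y i j) * 2 ^ l := by
          rw [pow_add]; ring
        rw [this]
      rw [e, ← sum_filter, sum_const, nsmul_eq_mul]
    rw [sum_congr rfl this, sum_comm]
    refine sum_congr rfl (fun i _ => by rw [sum_filter])
  rw [h1]
  have h2 : ∀ j ∈ (univ : Finset ι),
      ∑ l ∈ (range m).filter
          (fun l => A.card * 2 ^ L ≤ (8 * 2 ^ k * ∑ i ∈ A, y i j) * 2 ^ l), ((1 : ℝ) / 2) ^ l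
        ≤ 2 * ((8 * 2 ^ k * ∑ i ∈ A, y i j : ℕ) : ℝ) / ((A.card * 2 ^ L : ℕ) : ℝ) :=
    fun j _ => tail_sum _ (A.card * 2 ^ L) m (by positivity)
  refine (sum_le_sum h2).trans ?_
  rw [← sum_div, ← mul_sum]
  have hApos : (0 : ℝ) < A.card := by exact_mod_cast hA
  have hden : (0 : ℝ) < ((A.card * 2 ^ L : ℕ) : ℝ) := by positivity
  rw [div_le_iff₀ hden]
  have h3 : ∑ j, ((8 * 2 ^ k * ∑ i ∈ A, y i j : ℕ)) ≤ 8 * 2 ^ k * (A.card * 2 ^ (L - 30)) := by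
    rw [← mul_sum, sum_comm]
    refine Nat.mul_le_mul_left _ ?_
    calc ∑ i ∈ A, ∑ j, y i j ≤ ∑ _i ∈ A, 2 ^ (L - 30) := sum_le_sum (fun i _ => hrow i)
      _ = A.card * 2 ^ (L - 30) := by rw [sum_const, smul_eq_mul]
  have h4 : (∑ j, ((8 * 2 ^ k * ∑ i ∈ A, y i j : ℕ) : ℝ)) ≤ 8 * 2 ^ k * (A.card * 2 ^ (L - 30)) := by
    have := (Nat.cast_le (α := ℝ)).2 h3
    push_cast at this ⊢
    exact this
  have h5 : (2 : ℝ) ^ L = 2 ^ (L - 30) * 2 ^ 30 := by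
    rw [← pow_add]; congr 1; omega
  push_cast at h4 ⊢
  rw [h5]
  calc 2 * (∑ j, (8 * 2 ^ k * ∑ i ∈ A, (y i j : ℝ)))
      ≤ 2 * (8 * 2 ^ k * (A.card * 2 ^ (L - 30))) := by gcongr
    _ = 16 * 2 ^ k / 2 ^ 30 * (A.card * (2 ^ (L - 30) * 2 ^ 30)) := by
        field_simp
        ring

/-- pairs of scales whose cells are large enough -/
def RR (L : ℕ) : Finset (ℕ × ℕ) :=
  ((range (L + 1)) ×ˢ (range (L + 1))).filter (fun q => q.1 + q.2 + 4 ≤ L)

lemma exists_scale (u L : ℕ) (h0 : 0 < u) (h1 : u ≤ 2 ^ L) :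
    ∃ k, k ≤ L ∧ 2 ^ L ≤ u * 2 ^ k ∧ u * 2 ^ k < 2 * 2 ^ L := by
  have h : ∃ k, 2 ^ L ≤ u * 2 ^ k := ⟨L, Nat.le_mul_of_pos_left _ h0⟩
  refine ⟨Nat.find h, Nat.find_min' h (Nat.le_mul_of_pos_left _ h0), Nat.find_spec h, ?_⟩
  rcases Nat.eq_zero_or_pos (Nat.find h) with h2 | h2
  · rw [h2]
    have : 0 < 2 ^ L := by positivity
    omega
  · have := Nat.find_min h (m := Nat.find h - 1) (by omega)
    push Not at this
    have e : u * 2 ^ Nat.find h = 2 * (u * 2 ^ (Nat.find h - 1)) := by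
      conv_lhs => rw [show Nat.find h = (Nat.find h - 1) + 1 by omega, pow_succ]
      ring
    rw [e]
    omega

/-- weight of the coarse cells, from below -/
lemma coarse_weight (L : ℕ) (nn mm : ι → ℕ) (x : ι → ι → ℕ)
    (hx : ∑ i, ∑ j, x i j = 2 ^ L)
    (hub : ∀ i j, x i j * 2 ^ L ≤ 4 * 2 ^ L + 4 * (nn i * mm j))
    (hT : 520 * ((univ : Finset (ι × ι)).filter (fun q => x q.1 q.2 ≠ 0)).card < 2 ^ L) :
    2 ^ L * 2 ^ L ≤ 10 * ∑ q ∈ (univ : Finset (ι × ι)).filter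
      (fun q => 64 * 2 ^ L ≤ nn q.1 * mm q.2), nn q.1 * mm q.2 := by
  set n := 2 ^ L with hn
  have hnpos : 0 < n := by positivity
  have hx' : ∑ q : ι × ι, x q.1 q.2 = n := by
    rw [Fintype.sum_prod_type]; exact hx
  rw [← sum_filter_add_sum_filter_not (univ : Finset (ι × ι))
    (fun q => 64 * n ≤ nn q.1 * mm q.2)] at hx'
  have hfine : ∑ q ∈ (univ : Finset (ι × ι)).filter (fun q => ¬ (64 * n ≤ nn q.1 * mm q.2)),
      x q.1 q.2 ≤ 260 * ((univ : Finset (ι × ι)).filter (fun q => x q.1 q.2 ≠ 0)).card := by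
    calc ∑ q ∈ (univ : Finset (ι × ι)).filter (fun q => ¬ (64 * n ≤ nn q.1 * mm q.2)), x q.1 q.2
        = ∑ q ∈ ((univ : Finset (ι × ι)).filter
            (fun q => ¬ (64 * n ≤ nn q.1 * mm q.2))).filter (fun q => x q.1 q.2 ≠ 0),
            x q.1 q.2 := by rw [sum_filter_ne_zero]
      _ ≤ ∑ _q ∈ ((univ : Finset (ι × ι)).filter
            (fun q => ¬ (64 * n ≤ nn q.1 * mm q.2))).filter (fun q => x q.1 q.2 ≠ 0), 260 := by
          refine sum_le_sum (fun q hq => ?_)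
          have h1 := (mem_filter.1 (mem_filter.1 hq).1).2
          have h2 := hub q.1 q.2
          have h3 : x q.1 q.2 * n ≤ 260 * n := by omega
          exact Nat.le_of_mul_le_mul_right h3 hnpos
      _ = 260 * (((univ : Finset (ι × ι)).filter
            (fun q => ¬ (64 * n ≤ nn q.1 * mm q.2))).filter (fun q => x q.1 q.2 ≠ 0)).card := by
          rw [sum_const, smul_eq_mul, mul_comm]
      _ ≤ 260 * ((univ : Finset (ι × ι)).filter (fun q => x q.1 q.2 ≠ 0)).card := by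
          refine Nat.mul_le_mul_left _ (card_le_card ?_)
          exact filter_subset_filter _ (subset_univ _)
  have hcoarse : (∑ q ∈ (univ : Finset (ι × ι)).filter (fun q => 64 * n ≤ nn q.1 * mm q.2),
      x q.1 q.2) * n ≤ 5 * ∑ q ∈ (univ : Finset (ι × ι)).filter
      (fun q => 64 * n ≤ nn q.1 * mm q.2), nn q.1 * mm q.2 := by
    rw [sum_mul, mul_sum]
    refine sum_le_sum (fun q hq => ?_)
    have h1 := (mem_filter.1 hq).2
    have h2 := hub q.1 q.2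
    omega
  set X := ∑ q ∈ (univ : Finset (ι × ι)).filter (fun q => 64 * n ≤ nn q.1 * mm q.2), x q.1 q.2
  have hX : n ≤ 2 * X := by omega
  calc n * n ≤ (2 * X) * n := Nat.mul_le_mul_right _ hX
    _ = 2 * (X * n) := by ring
    _ ≤ 2 * (5 * ∑ q ∈ (univ : Finset (ι × ι)).filter
      (fun q => 64 * n ≤ nn q.1 * mm q.2), nn q.1 * mm q.2) := Nat.mul_le_mul_left _ hcoarse
    _ = _ := by ring

lemma sum_RR_ge (L : ℕ) (nn mm : ι → ℕ)
    (hn : ∀ i, nn i ≤ 2 ^ L) (hm : ∀ j, mm j ≤ 2 ^ L)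
    (hc : 2 ^ L * 2 ^ L ≤ 10 * ∑ q ∈ (univ : Finset (ι × ι)).filter
      (fun q => 64 * 2 ^ L ≤ nn q.1 * mm q.2), nn q.1 * mm q.2) :
    1 / 40 ≤ ∑ q ∈ RR L, al nn L q.1 * al mm L q.2 := by
  have h1 : ∑ q ∈ RR L, al nn L q.1 * al mm L q.2
      = ∑ p : ι × ι, ∑ q ∈ RR L, (if 2 ^ L ≤ nn p.1 * 2 ^ q.1 ∧ 2 ^ L ≤ mm p.2 * 2 ^ q.2
          then ((1 : ℝ) / 2) ^ q.1 * (1 / 2) ^ q.2 else 0) := by
    rw [sum_comm]
    refine sum_congr rfl (fun q _ => ?_)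
    unfold al cls
    rw [Fintype.sum_prod_type]
    have e : ∀ i : ι, ∑ j : ι, (if 2 ^ L ≤ nn i * 2 ^ q.1 ∧ 2 ^ L ≤ mm j * 2 ^ q.2
          then ((1 : ℝ) / 2) ^ q.1 * (1 / 2) ^ q.2 else 0)
        = (if 2 ^ L ≤ nn i * 2 ^ q.1 then (1 : ℝ) else 0) *
          ((((univ : Finset ι).filter (fun j => 2 ^ L ≤ mm j * 2 ^ q.2)).card : ℝ)
            * (((1 : ℝ) / 2) ^ q.1 * (1 / 2) ^ q.2)) := by
      intro i
      by_cases hi : 2 ^ L ≤ nn i * 2 ^ q.1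
      · simp only [hi, true_and, if_true, one_mul]
        rw [← sum_filter, sum_const, nsmul_eq_mul]
      · simp [hi]
    rw [sum_congr rfl (fun i _ => e i), ← sum_mul, ← sum_filter, sum_const, nsmul_eq_mul]
    ring
  rw [h1]
  have h2 : ∀ p ∈ (univ : Finset (ι × ι)).filter (fun q => 64 * 2 ^ L ≤ nn q.1 * mm q.2),
      ((nn p.1 * mm p.2 : ℕ) : ℝ) / (4 * (2 ^ L * 2 ^ L)) ≤
      ∑ q ∈ RR L, (if 2 ^ L ≤ nn p.1 * 2 ^ q.1 ∧ 2 ^ L ≤ mm p.2 * 2 ^ q.2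
          then ((1 : ℝ) / 2) ^ q.1 * (1 / 2) ^ q.2 else 0) := by
    intro p hp
    have hp := (mem_filter.1 hp).2
    have hL : 0 < 2 ^ L := by positivity
    have hn0 : 0 < nn p.1 := by
      rcases Nat.eq_zero_or_pos (nn p.1) with h | h
      · rw [h] at hp; simp at hp
      · exact h
    have hm0 : 0 < mm p.2 := by
      rcases Nat.eq_zero_or_pos (mm p.2) with h | h
      · rw [h] at hp; simp at hp
      · exact h
    obtain ⟨k, hkL, hk1, hk2⟩ := exists_scale (nn p.1) L hn0 (hn p.1)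
    obtain ⟨l, hlL, hl1, hl2⟩ := exists_scale (mm p.2) L hm0 (hm p.2)
    have hkl : k + l + 4 ≤ L := by
      have h3 : (nn p.1 * 2 ^ k) * (mm p.2 * 2 ^ l) < (2 * 2 ^ L) * (2 * 2 ^ L) :=
        Nat.mul_lt_mul_of_lt_of_lt hk2 hl2
      have h4 : (64 * 2 ^ L) * 2 ^ (k + l) ≤ (nn p.1 * mm p.2) * 2 ^ (k + l) :=
        Nat.mul_le_mul_right _ hp
      have h5 : (nn p.1 * mm p.2) * 2 ^ (k + l) = (nn p.1 * 2 ^ k) * (mm p.2 * 2 ^ l) := by
        rw [pow_add]; ring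
      have h6 : (64 * 2 ^ L) * 2 ^ (k + l) < (2 * 2 ^ L) * (2 * 2 ^ L) := by
        rw [← h5] at h3; exact lt_of_le_of_lt h4 h3
      have h7 : (4 * 2 ^ L) * 2 ^ (k + l + 4) < (4 * 2 ^ L) * 2 ^ L := by
        calc (4 * 2 ^ L) * 2 ^ (k + l + 4) = (64 * 2 ^ L) * 2 ^ (k + l) := by
              rw [pow_add _ (k + l) 4]; ring
          _ < (2 * 2 ^ L) * (2 * 2 ^ L) := h6
          _ = (4 * 2 ^ L) * 2 ^ L := by ring
      have h8 : 2 ^ (k + l + 4) < 2 ^ L := lt_of_mul_lt_mul_left h7 (Nat.zero_le _)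
      exact le_of_lt ((Nat.pow_lt_pow_iff_right (by norm_num)).1 h8)
    have hmem : (k, l) ∈ RR L := by
      unfold RR
      rw [mem_filter, mem_product, mem_range, mem_range]
      exact ⟨⟨by simp only; omega, by simp only; omega⟩, hkl⟩
    have h9 : ((nn p.1 * mm p.2 : ℕ) : ℝ) / (4 * (2 ^ L * 2 ^ L))
        ≤ ((1 : ℝ) / 2) ^ k * (1 / 2) ^ l := by
      have a1 : (nn p.1 : ℝ) * 2 ^ k ≤ 2 * 2 ^ L := by exact_mod_cast hk2.le
      have a2 : (mm p.2 : ℝ) * 2 ^ l ≤ 2 * 2 ^ L := by exact_mod_cast hl2.le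
      have b1 : (nn p.1 : ℝ) / (2 * 2 ^ L) ≤ (1 / 2) ^ k := by
        rw [div_le_iff₀ (by positivity), one_div, inv_pow]
        rw [inv_mul_eq_div, le_div_iff₀ (by positivity)]
        exact a1
      have b2 : (mm p.2 : ℝ) / (2 * 2 ^ L) ≤ (1 / 2) ^ l := by
        rw [div_le_iff₀ (by positivity), one_div, inv_pow]
        rw [inv_mul_eq_div, le_div_iff₀ (by positivity)]
        exact a2
      calc ((nn p.1 * mm p.2 : ℕ) : ℝ) / (4 * (2 ^ L * 2 ^ L))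
          = ((nn p.1 : ℝ) / (2 * 2 ^ L)) * ((mm p.2 : ℝ) / (2 * 2 ^ L)) := by
            push_cast; field_simp; ring
        _ ≤ _ := by gcongr
    refine h9.trans ?_
    have := Finset.single_le_sum (s := RR L)
      (f := fun q => (if 2 ^ L ≤ nn p.1 * 2 ^ q.1 ∧ 2 ^ L ≤ mm p.2 * 2 ^ q.2
          then ((1 : ℝ) / 2) ^ q.1 * (1 / 2) ^ q.2 else 0))
      (fun q _ => by split_ifs <;> positivity) hmem
    simp only [hk1, hl1, and_self, if_true] at this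
    exact this
  have h3 : ∑ p ∈ (univ : Finset (ι × ι)).filter (fun q => 64 * 2 ^ L ≤ nn q.1 * mm q.2),
      ((nn p.1 * mm p.2 : ℕ) : ℝ) / (4 * (2 ^ L * 2 ^ L)) ≤
      ∑ p : ι × ι, ∑ q ∈ RR L, (if 2 ^ L ≤ nn p.1 * 2 ^ q.1 ∧ 2 ^ L ≤ mm p.2 * 2 ^ q.2
          then ((1 : ℝ) / 2) ^ q.1 * (1 / 2) ^ q.2 else 0) :=
    (sum_le_sum h2).trans (sum_le_sum_of_subset_of_nonneg (filter_subset _ _)
      (fun p _ _ => sum_nonneg (fun q _ => by split_ifs <;> positivity)))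
  refine le_trans ?_ h3
  rw [← sum_div, le_div_iff₀ (by positivity)]
  have hc' : ((2 : ℝ) ^ L * 2 ^ L) ≤ 10 * ∑ q ∈ (univ : Finset (ι × ι)).filter
      (fun q => 64 * 2 ^ L ≤ nn q.1 * mm q.2), ((nn q.1 * mm q.2 : ℕ) : ℝ) := by
    exact_mod_cast hc
  linarith

/-- good scales -/
def KK (nn : ι → ℕ) (L : ℕ) : Finset ℕ :=
  (range (L + 1)).filter (fun k => 2 ^ (k / 2) ≤ (cls nn L k).card)

lemma cls_card_pos_imp (nn : ι → ℕ) (L k : ℕ) (hL : 30 ≤ L) (hn : ∀ i, nn i ≤ 2 ^ (L - 30))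
    (h : 0 < (cls nn L k).card) : 30 ≤ k := by
  obtain ⟨i, hi⟩ := card_pos.1 h
  have h1 := (mem_filter.1 hi).2
  have h2 : 2 ^ L ≤ 2 ^ (L - 30) * 2 ^ k := h1.trans (Nat.mul_le_mul_right _ (hn i))
  rw [← pow_add] at h2
  have := (Nat.pow_le_pow_iff_right (by norm_num : 1 < 2)).1 h2
  omega

lemma sum_bad (nn : ι → ℕ) (L : ℕ) (hL : 30 ≤ L) (hn : ∀ i, nn i ≤ 2 ^ (L - 30)) :
    ∑ k ∈ (range (L + 1)).filter (fun k => ¬ (2 ^ (k / 2) ≤ (cls nn L k).card)),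
      al nn L k ≤ 1 / 640 := by
  have h1 : ∀ k ∈ (range (L + 1)).filter (fun k => ¬ (2 ^ (k / 2) ≤ (cls nn L k).card)),
      al nn L k ≤ if 30 ≤ k then ((3 : ℝ) / 4) ^ k else 0 := by
    intro k hk
    have hk := (mem_filter.1 hk).2
    by_cases hk30 : 30 ≤ k
    · simp only [hk30, if_true]
      unfold al
      have a1 : ((cls nn L k).card : ℝ) ≤ 2 ^ (k / 2) := by
        have : (cls nn L k).card ≤ 2 ^ (k / 2) := by omega
        exact_mod_cast this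
      have a2 : (2 : ℝ) ^ (k / 2) ≤ (3 / 2) ^ k := by
        calc (2 : ℝ) ^ (k / 2) ≤ ((3 / 2) ^ 2) ^ (k / 2) := by
              apply pow_le_pow_left₀ (by norm_num); norm_num
          _ = (3 / 2 : ℝ) ^ (2 * (k / 2)) := by rw [pow_mul]
          _ ≤ (3 / 2) ^ k := by
              apply pow_le_pow_right₀ (by norm_num); omega
      calc ((cls nn L k).card : ℝ) * (1 / 2) ^ k ≤ (3 / 2) ^ k * (1 / 2) ^ k := by
            gcongr; exact a1.trans a2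
        _ = (3 / 4) ^ k := by rw [← mul_pow]; norm_num
    · simp only [hk30, if_false]
      have : (cls nn L k).card = 0 := by
        rcases Nat.eq_zero_or_pos (cls nn L k).card with h | h
        · exact h
        · exact absurd (cls_card_pos_imp nn L k hL hn h) hk30
      unfold al
      rw [this]; simp
  refine (sum_le_sum h1).trans ?_
  rw [← sum_filter]
  have hsub : ((range (L + 1)).filter (fun k => ¬ (2 ^ (k / 2) ≤ (cls nn L k).card))).filter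
      (fun k => 30 ≤ k) ⊆ Ico 30 (L + 1) := by
    intro k hk
    obtain ⟨hk1, hk2⟩ := mem_filter.1 hk
    exact mem_Ico.2 ⟨hk2, mem_range.1 (mem_filter.1 hk1).1⟩
  refine (sum_le_sum_of_subset_of_nonneg hsub (fun _ _ _ => by positivity)).trans ?_
  refine (geom_sum_Ico_le_of_lt_one (by norm_num) (by norm_num)).trans ?_
  norm_num

lemma sum_good (L : ℕ) (hL : 30 ≤ L) (nn mm : ι → ℕ)
    (hn : ∀ i, nn i ≤ 2 ^ (L - 30)) (hm : ∀ j, mm j ≤ 2 ^ (L - 30))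
    (hns : ∑ i, nn i = 2 ^ L) (hms : ∑ i, mm i = 2 ^ L)
    (h : 1 / 40 ≤ ∑ q ∈ RR L, al nn L q.1 * al mm L q.2) :
    1 / 80 ≤ ∑ q ∈ (RR L).filter (fun q => q.1 ∈ KK nn L ∧ q.2 ∈ KK mm L),
      al nn L q.1 * al mm L q.2 := by
  have hnonneg : ∀ q : ℕ × ℕ, 0 ≤ al nn L q.1 * al mm L q.2 :=
    fun q => mul_nonneg (al_nonneg _ _ _) (al_nonneg _ _ _)
  have h1 : RR L ⊆ ((RR L).filter (fun q => q.1 ∈ KK nn L ∧ q.2 ∈ KK mm L)) ∪
      ((((range (L + 1)).filter (fun k => ¬ (2 ^ (k / 2) ≤ (cls nn L k).card))) ×ˢ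
        (range (L + 1))) ∪
      ((range (L + 1)) ×ˢ
        ((range (L + 1)).filter (fun k => ¬ (2 ^ (k / 2) ≤ (cls mm L k).card))))) := by
    intro q hq
    have hq' := hq
    unfold RR at hq'
    obtain ⟨hq1, hq2⟩ := mem_filter.1 hq'
    obtain ⟨hq3, hq4⟩ := mem_product.1 hq1
    by_cases ha : 2 ^ (q.1 / 2) ≤ (cls nn L q.1).card
    · by_cases hb : 2 ^ (q.2 / 2) ≤ (cls mm L q.2).card
      · apply mem_union_left
        exact mem_filter.2 ⟨hq, mem_filter.2 ⟨hq3, ha⟩, mem_filter.2 ⟨hq4, hb⟩⟩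
      · apply mem_union_right
        apply mem_union_right
        exact mem_product.2 ⟨hq3, mem_filter.2 ⟨hq4, hb⟩⟩
    · apply mem_union_right
      apply mem_union_left
      exact mem_product.2 ⟨mem_filter.2 ⟨hq3, ha⟩, hq4⟩
  have h2 := (sum_le_sum_of_subset_of_nonneg (f := fun q : ℕ × ℕ => al nn L q.1 * al mm L q.2) h1
    (fun q _ _ => hnonneg q))
  have hun : ∀ S T : Finset (ℕ × ℕ), ∑ q ∈ S ∪ T, al nn L q.1 * al mm L q.2
      ≤ ∑ q ∈ S, al nn L q.1 * al mm L q.2 + ∑ q ∈ T, al nn L q.1 * al mm L q.2 := by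
    intro S T
    have := sum_union_inter (s₁ := S) (s₂ := T) (f := fun q : ℕ × ℕ => al nn L q.1 * al mm L q.2)
    have h0 : 0 ≤ ∑ q ∈ S ∩ T, al nn L q.1 * al mm L q.2 := sum_nonneg (fun q _ => hnonneg q)
    linarith
  have h3 := h2.trans (hun _ _)
  have h4 := hun (((range (L + 1)).filter (fun k => ¬ (2 ^ (k / 2) ≤ (cls nn L k).card))) ×ˢ
        (range (L + 1))) ((range (L + 1)) ×ˢ
        ((range (L + 1)).filter (fun k => ¬ (2 ^ (k / 2) ≤ (cls mm L k).card))))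
  have h5 : ∑ q ∈ (((range (L + 1)).filter (fun k => ¬ (2 ^ (k / 2) ≤ (cls nn L k).card))) ×ˢ
        (range (L + 1))), al nn L q.1 * al mm L q.2 ≤ 1 / 640 * 2 := by
    rw [sum_product]
    simp only
    rw [← sum_mul_sum]
    have a1 := sum_bad nn L hL hn
    have a2 := sum_al_le mm L (L + 1) hms
    have a3 : 0 ≤ ∑ k ∈ range (L + 1), al mm L k := sum_nonneg (fun _ _ => al_nonneg _ _ _)
    gcongr
  have h6 : ∑ q ∈ ((range (L + 1)) ×ˢ
        ((range (L + 1)).filter (fun k => ¬ (2 ^ (k / 2) ≤ (cls mm L k).card)))),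
        al nn L q.1 * al mm L q.2 ≤ 2 * (1 / 640) := by
    rw [sum_product]
    simp only
    rw [← sum_mul_sum]
    have a1 := sum_bad mm L hL hm
    have a2 := sum_al_le nn L (L + 1) hns
    have a3 : 0 ≤ ∑ k ∈ (range (L + 1)).filter (fun k => ¬ (2 ^ (k / 2) ≤ (cls mm L k).card)),
      al mm L k := sum_nonneg (fun _ _ => al_nonneg _ _ _)
    gcongr
  linarith

/-- the one-sided selection -/
lemma side (L : ℕ) (hL : 30 ≤ L) (nn mm : ι → ℕ) (x y : ι → ι → ℕ)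
    (hn : ∀ i, nn i ≤ 2 ^ (L - 30))
    (hns : ∑ i, nn i = 2 ^ L)
    (hxy : ∀ i j, x i j ≤ y i j)
    (hlb : ∀ i j, 16 * 2 ^ L ≤ nn i * mm j → nn i * mm j ≤ 8 * 2 ^ L * x i j)
    (hrow : ∀ i, ∑ j, y i j ≤ 2 ^ (L - 30))
    (hgood : 1 / 80 ≤ ∑ q ∈ (RR L).filter (fun q => q.1 ∈ KK nn L ∧ q.2 ∈ KK mm L),
      al nn L q.1 * al mm L q.2)
    (k : ℕ) (hk : k ∈ KK nn L) (hkmin : ∀ k' ∈ KK nn L, k ≤ k') (hlmin : ∀ l ∈ KK mm L, k ≤ l) :
    ∃ l, l ∈ range (L + 1) ∧ adm y L k l (cls nn L k) (cls mm L l) ∧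
      ∀ i ∈ cls nn L k, ∀ j ∈ cls mm L l, x i j ≠ 0 := by
  obtain ⟨hkr, hkc⟩ := mem_filter.1 hk
  have hApos : 0 < (cls nn L k).card := lt_of_lt_of_le (by positivity) hkc
  have hk30 : 30 ≤ k := cls_card_pos_imp nn L k hL hn hApos
  set LL := (KK mm L).filter (fun l => k + l + 4 ≤ L) with hLL
  -- the mass of the admissible row scales
  have hmass : 1 / 160 ≤ ∑ l ∈ LL, al mm L l := by
    have hsub : (RR L).filter (fun q => q.1 ∈ KK nn L ∧ q.2 ∈ KK mm L) ⊆ (range (L + 1)) ×ˢ LL := by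
      intro q hq
      obtain ⟨hq1, hq2, hq3⟩ := mem_filter.1 hq
      unfold RR at hq1
      obtain ⟨hq4, hq5⟩ := mem_filter.1 hq1
      refine mem_product.2 ⟨(mem_product.1 hq4).1, mem_filter.2 ⟨hq3, ?_⟩⟩
      have := hkmin _ hq2
      omega
    have h1 := sum_le_sum_of_subset_of_nonneg (f := fun q : ℕ × ℕ => al nn L q.1 * al mm L q.2) hsub
      (fun q _ _ => mul_nonneg (al_nonneg _ _ _) (al_nonneg _ _ _))
    rw [sum_product] at h1
    simp only at h1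
    rw [← sum_mul_sum] at h1
    have h2 := sum_al_le nn L (L + 1) hns
    have h3 : 0 ≤ ∑ l ∈ LL, al mm L l := sum_nonneg (fun _ _ => al_nonneg _ _ _)
    have h4 : (∑ k ∈ range (L + 1), al nn L k) * ∑ l ∈ LL, al mm L l
        ≤ 2 * ∑ l ∈ LL, al mm L l := by gcongr
    linarith
  -- a good scale
  obtain ⟨l, hl, hlgood⟩ : ∃ l ∈ LL, ((cand y L k l (cls nn L k)).card : ℝ) * (1 / 2) ^ l
      ≤ (2560 * 2 ^ k / 2 ^ 30) * al mm L l := by
    by_contra hcon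
    push Not at hcon
    have hne : LL.Nonempty := by
      rw [nonempty_iff_ne_empty]
      intro h
      rw [h, sum_empty] at hmass
      norm_num at hmass
    have h1 : ∑ l ∈ LL, (2560 * 2 ^ k / 2 ^ 30) * al mm L l
        < ∑ l ∈ LL, ((cand y L k l (cls nn L k)).card : ℝ) * (1 / 2) ^ l :=
      sum_lt_sum_of_nonempty hne hcon
    rw [← mul_sum] at h1
    have h2 : ∑ l ∈ LL, ((cand y L k l (cls nn L k)).card : ℝ) * (1 / 2) ^ l
        ≤ ∑ l ∈ range (L + 1), ((cand y L k l (cls nn L k)).card : ℝ) * (1 / 2) ^ l := by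
      refine sum_le_sum_of_subset_of_nonneg ?_ (fun _ _ _ => by positivity)
      intro l hl
      exact (mem_filter.1 (mem_filter.1 hl).1).1
    have h3 := sum_cand_le y L k (L + 1) hL (cls nn L k) hApos hrow
    have h4 : (2560 * 2 ^ k / 2 ^ 30 : ℝ) * (1 / 160) ≤ (2560 * 2 ^ k / 2 ^ 30) *
        ∑ l ∈ LL, al mm L l := by gcongr
    have h5 : (2560 * 2 ^ k / 2 ^ 30 : ℝ) * (1 / 160) = 16 * 2 ^ k / 2 ^ 30 := by ring
    linarith
  obtain ⟨hlK, hklL⟩ := mem_filter.1 hl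
  obtain ⟨hlr, hlc⟩ := mem_filter.1 hlK
  have hkl : k ≤ l := hlmin l hlK
  -- every cell is heavy
  have hcell : ∀ i ∈ cls nn L k, ∀ j ∈ cls mm L l, 2 ^ L ≤ 8 * 2 ^ (k + l) * x i j := by
    intro i hi j hj
    have hi := (mem_filter.1 hi).2
    have hj := (mem_filter.1 hj).2
    have h1 : 2 ^ L * 2 ^ L ≤ (nn i * mm j) * 2 ^ (k + l) := by
      calc 2 ^ L * 2 ^ L ≤ (nn i * 2 ^ k) * (mm j * 2 ^ l) := Nat.mul_le_mul hi hj
        _ = (nn i * mm j) * 2 ^ (k + l) := by rw [pow_add]; ring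
    have h2 : 16 * 2 ^ L ≤ nn i * mm j := by
      have h3 : (16 * 2 ^ L) * 2 ^ (k + l) ≤ 2 ^ L * 2 ^ L := by
        calc (16 * 2 ^ L) * 2 ^ (k + l) = 2 ^ L * 2 ^ (k + l + 4) := by
              rw [pow_add _ (k + l) 4]; ring
          _ ≤ 2 ^ L * 2 ^ L := Nat.mul_le_mul_left _ (Nat.pow_le_pow_right (by norm_num) hklL)
      exact Nat.le_of_mul_le_mul_right (h3.trans h1) (by positivity)
    have h4 := hlb i j h2
    have h5 : 2 ^ L * 2 ^ L ≤ 2 ^ L * (8 * 2 ^ (k + l) * x i j) := by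
      calc 2 ^ L * 2 ^ L ≤ (nn i * mm j) * 2 ^ (k + l) := h1
        _ ≤ (8 * 2 ^ L * x i j) * 2 ^ (k + l) := Nat.mul_le_mul_right _ h4
        _ = 2 ^ L * (8 * 2 ^ (k + l) * x i j) := by ring
    exact Nat.le_of_mul_le_mul_left h5 (by positivity)
  have hcell' : ∀ i ∈ cls nn L k, ∀ j ∈ cls mm L l, 2 ^ L ≤ 8 * 2 ^ (k + l) * y i j :=
    fun i hi j hj => (hcell i hi j hj).trans (Nat.mul_le_mul_left _ (hxy i j))
  refine ⟨l, hlr, ⟨hk30, hkl, hkc, hlc, hcell', ?_, ?_⟩, ?_⟩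
  · intro j hj
    refine mem_filter.2 ⟨mem_univ _, ?_⟩
    rw [mul_sum]
    calc (cls nn L k).card * 2 ^ L = ∑ _i ∈ cls nn L k, 2 ^ L := by rw [sum_const, smul_eq_mul]
      _ ≤ _ := sum_le_sum (fun i hi => hcell' i hi j hj)
  · have h1 : ((2 ^ 30 * (cand y L k l (cls nn L k)).card : ℕ) : ℝ)
        ≤ ((2560 * 2 ^ k * (cls mm L l).card : ℕ) : ℝ) := by
      unfold al at hlgood
      have h2 : ((1 : ℝ) / 2) ^ l * 2 ^ l = 1 := by rw [← mul_pow]; norm_num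
      have h3 := mul_le_mul_of_nonneg_right hlgood (show (0 : ℝ) ≤ 2 ^ l * 2 ^ 30 by positivity)
      have e1 : ((cand y L k l (cls nn L k)).card : ℝ) * (1 / 2) ^ l * (2 ^ l * 2 ^ 30)
          = 2 ^ 30 * (cand y L k l (cls nn L k)).card * ((1 / 2) ^ l * 2 ^ l) := by ring
      have e2 : (2560 * 2 ^ k / 2 ^ 30 : ℝ) * (((cls mm L l).card : ℝ) * (1 / 2) ^ l)
          * (2 ^ l * 2 ^ 30) = 2560 * 2 ^ k * (cls mm L l).card * ((1 / 2) ^ l * 2 ^ l) := by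
        ring
      rw [e1, e2, h2, mul_one, mul_one] at h3
      push_cast
      linarith
    exact_mod_cast h1
  · intro i hi j hj h0
    have := hcell i hi j hj
    rw [h0, mul_zero] at this
    have : 0 < 2 ^ L := by positivity
    omega

/-- the selection lemma -/
theorem select (L : ℕ) (hL : 30 ≤ L) (nn mm : ι → ℕ) (x y : ι → ι → ℕ)
    (hn : ∀ i, nn i ≤ 2 ^ (L - 30)) (hm : ∀ j, mm j ≤ 2 ^ (L - 30))
    (hns : ∑ i, nn i = 2 ^ L) (hms : ∑ j, mm j = 2 ^ L)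
    (hx : ∑ i, ∑ j, x i j = 2 ^ L)
    (hxy : ∀ i j, x i j ≤ y i j)
    (hub : ∀ i j, x i j * 2 ^ L ≤ 4 * 2 ^ L + 4 * (nn i * mm j))
    (hlb : ∀ i j, 16 * 2 ^ L ≤ nn i * mm j → nn i * mm j ≤ 8 * 2 ^ L * x i j)
    (hrow : ∀ i, ∑ j, y i j ≤ 2 ^ (L - 30)) (hcol : ∀ j, ∑ i, y i j ≤ 2 ^ (L - 30))
    (hT : 520 * ((univ : Finset (ι × ι)).filter (fun q => x q.1 q.2 ≠ 0)).card < 2 ^ L) :
    (∃ k ∈ range (L + 1), ∃ l ∈ range (L + 1), ∃ A B : Finset ι, adm y L k l A B ∧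
      ∀ i ∈ A, ∀ j ∈ B, x i j ≠ 0) ∨
    (∃ k ∈ range (L + 1), ∃ l ∈ range (L + 1), ∃ A B : Finset ι,
      adm (fun i j => y j i) L k l A B ∧ ∀ i ∈ A, ∀ j ∈ B, x j i ≠ 0) := by
  have hc := coarse_weight L nn mm x hx hub hT
  have hle : 2 ^ (L - 30) ≤ 2 ^ L := Nat.pow_le_pow_right (by norm_num) (by omega)
  have h40 := sum_RR_ge L nn mm (fun i => (hn i).trans hle) (fun j => (hm j).trans hle) hc
  have h80 := sum_good L hL nn mm hn hm hns hms h40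
  have hne : ((RR L).filter (fun q => q.1 ∈ KK nn L ∧ q.2 ∈ KK mm L)).Nonempty := by
    rw [nonempty_iff_ne_empty]
    intro h
    rw [h, sum_empty] at h80
    norm_num at h80
  obtain ⟨q, hq⟩ := hne
  obtain ⟨-, hq1, hq2⟩ := mem_filter.1 hq
  have hKne : (KK nn L).Nonempty := ⟨_, hq1⟩
  have hLne : (KK mm L).Nonempty := ⟨_, hq2⟩
  have hk := (KK nn L).min'_mem hKne
  have hl := (KK mm L).min'_mem hLne
  have hkmin : ∀ k' ∈ KK nn L, (KK nn L).min' hKne ≤ k' := fun k' h => (KK nn L).min'_le k' h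
  have hlmin : ∀ k' ∈ KK mm L, (KK mm L).min' hLne ≤ k' := fun k' h => (KK mm L).min'_le k' h
  rcases le_total ((KK nn L).min' hKne) ((KK mm L).min' hLne) with h | h
  · left
    obtain ⟨l, hlr, hadm, hx0⟩ := side L hL nn mm x y hn hns hxy hlb hrow h80 _ hk hkmin
      (fun l hl' => h.trans (hlmin l hl'))
    exact ⟨_, (mem_filter.1 hk).1, l, hlr, _, _, hadm, hx0⟩
  · right
    have h80' : 1 / 80 ≤ ∑ q ∈ (RR L).filter (fun q => q.1 ∈ KK mm L ∧ q.2 ∈ KK nn L),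
        al mm L q.1 * al nn L q.2 := by
      refine h80.trans (le_of_eq ?_)
      refine sum_nbij' (fun q => (q.2, q.1)) (fun q => (q.2, q.1)) ?_ ?_ ?_ ?_ ?_
      · intro q hq
        obtain ⟨h1, h2, h3⟩ := mem_filter.1 hq
        unfold RR at h1 ⊢
        obtain ⟨h4, h5⟩ := mem_filter.1 h1
        obtain ⟨h6, h7⟩ := mem_product.1 h4
        refine mem_filter.2 ⟨mem_filter.2 ⟨mem_product.2 ⟨h7, h6⟩, ?_⟩, h3, h2⟩
        simp only; omega
      · intro q hq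
        obtain ⟨h1, h2, h3⟩ := mem_filter.1 hq
        unfold RR at h1 ⊢
        obtain ⟨h4, h5⟩ := mem_filter.1 h1
        obtain ⟨h6, h7⟩ := mem_product.1 h4
        refine mem_filter.2 ⟨mem_filter.2 ⟨mem_product.2 ⟨h7, h6⟩, ?_⟩, h3, h2⟩
        simp only; omega
      · intro q _; rfl
      · intro q _; rfl
      · intro q _; simp only; ring
    obtain ⟨l, hlr, hadm, hx0⟩ := side L hL mm nn (fun i j => x j i) (fun i j => y j i) hm hms
      (fun i j => hxy j i) (fun i j h' => by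
        rw [mul_comm (mm i) (nn j)] at h' ⊢
        exact hlb j i h') hcol h80' _ hl hlmin (fun k hk' => h.trans (hkmin k hk'))
    exact ⟨_, (mem_filter.1 hl).1, l, hlr, _, _, hadm, hx0⟩

end Pool.Agent.Helper18.Select
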