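import Mathlib
import Pool.Agent.Helper18.PropB
import Pool.Agent.Helper18.BitRev
import Pool.Agent.Helper18.Local
import Pool.Agent.Helper18.Select

/-!
The core statement: for every table of cell capacities there is a two-colouring of the cells such
that no trace of the bit reversal permutation is monochromatic.
-/

open Finset

namespace Pool.Agent.Helper18.Core

open Pool.Agent.Helper18

/-! ### Monotone functions and intervals -/

lemma mem_lower_iff {n : ℕ} (S : Finset (Fin n)) (hS : ∀ a b : Fin n, a ≤ b → b ∈ S → a ∈ S)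
    (q : Fin n) : q ∈ S ↔ q.val < S.card := by
  constructor
  · intro hq
    have hsub : Finset.Iic q ⊆ S := fun a ha => hS a q (mem_Iic.1 ha) hq
    have := card_le_card hsub
    rw [Fin.card_Iic] at this
    omega
  · intro hq
    by_contra hcon
    have hsub : S ⊆ Finset.Iio q := by
      intro a ha
      rw [mem_Iio]
      by_contra hle
      exact hcon (hS q a (not_lt.1 hle) ha)
    have := card_le_card hsub
    rw [Fin.card_Iio] at this
    omega

/-- number of arguments with value `< i` -/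
def lo {n s : ℕ} (c : Fin n → Fin s) (i : Fin s) : ℕ := (univ.filter (fun q => c q < i)).card

/-- number of arguments with value `≤ i` -/
def hi {n s : ℕ} (c : Fin n → Fin s) (i : Fin s) : ℕ := (univ.filter (fun q => c q ≤ i)).card

/-- size of a fibre -/
def fib {n s : ℕ} (c : Fin n → Fin s) (i : Fin s) : ℕ := (univ.filter (fun q => c q = i)).card

lemma lo_le_hi {n s : ℕ} (c : Fin n → Fin s) (i : Fin s) : lo c i ≤ hi c i := by
  unfold lo hi
  apply card_le_card
  intro q hq
  rw [mem_filter] at hq ⊢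
  exact ⟨hq.1, hq.2.le⟩

lemma hi_le {n s : ℕ} (c : Fin n → Fin s) (i : Fin s) : hi c i ≤ n := by
  unfold hi
  refine (card_le_univ _).trans ?_
  simp

lemma fib_eq {n s : ℕ} (c : Fin n → Fin s) (i : Fin s) : fib c i = hi c i - lo c i := by
  unfold fib hi lo
  have h : (univ.filter (fun q => c q ≤ i)) = (univ.filter (fun q => c q < i)) ∪
      (univ.filter (fun q => c q = i)) := by
    ext q
    simp only [mem_filter, mem_univ, true_and, mem_union]
    exact le_iff_lt_or_eq
  have hd : Disjoint (univ.filter (fun q => c q < i)) (univ.filter (fun q => c q = i)) := by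
    rw [disjoint_left]
    intro q h1 h2
    rw [mem_filter] at h1 h2
    exact absurd h2.2 (ne_of_lt h1.2)
  rw [h, card_union_of_disjoint hd]
  omega

lemma eq_iff {n s : ℕ} (c : Fin n → Fin s) (hc : Monotone c) (i : Fin s) (q : Fin n) :
    c q = i ↔ lo c i ≤ q.val ∧ q.val < hi c i := by
  have h1 : c q < i ↔ q.val < lo c i := by
    have := mem_lower_iff (univ.filter (fun q => c q < i))
      (fun a b hab hb => by
        rw [mem_filter] at hb ⊢
        exact ⟨mem_univ _, lt_of_le_of_lt (hc hab) hb.2⟩) q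
    rw [mem_filter] at this
    unfold lo
    simpa using this
  have h2 : c q ≤ i ↔ q.val < hi c i := by
    have := mem_lower_iff (univ.filter (fun q => c q ≤ i))
      (fun a b hab hb => by
        rw [mem_filter] at hb ⊢
        exact ⟨mem_univ _, le_trans (hc hab) hb.2⟩) q
    rw [mem_filter] at this
    unfold hi
    simpa using this
  rw [← h2, ← not_lt, ← h1]
  constructor
  · intro h; subst h; exact ⟨lt_irrefl _, le_refl _⟩
  · rintro ⟨h3, h4⟩; exact le_antisymm h4 (not_lt.1 h3)

/-! ### The number of monotone functions -/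

open Classical in
lemma card_monotone (n s : ℕ) :
    (univ.filter (fun c : Fin n → Fin s => Monotone c)).card ≤ (n + s).choose s := by
  have h1 : (n + s).choose s = (powersetCard n (range (n + s))).card := by
    rw [card_powersetCard, card_range, Nat.choose_symm_add]
  rw [h1]
  have hmono : ∀ c : Fin n → Fin s, Monotone c →
      StrictMono (fun p : Fin n => (c p : ℕ) + (p : ℕ)) := by
    intro c hc p q hpq
    have h1 : (c p : ℕ) ≤ c q := hc hpq.le
    have h2 : (p : ℕ) < q := hpq
    simp only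
    omega
  refine card_le_card_of_injOn
    (fun c => univ.image (fun p : Fin n => (c p : ℕ) + (p : ℕ))) ?_ ?_
  · intro c hc
    have hc := (mem_filter.1 hc).2
    simp only [mem_coe]
    rw [mem_powersetCard]
    constructor
    · intro x hx
      obtain ⟨p, -, rfl⟩ := mem_image.1 hx
      rw [mem_range]
      have := (c p).isLt
      have := p.isLt
      omega
    · rw [card_image_of_injective _ (hmono c hc).injective]
      simp
  · intro c hc d hd h
    have hc := (mem_filter.1 hc).2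
    have hd := (mem_filter.1 hd).2
    simp only at h
    have hcard : (univ.image (fun p : Fin n => (c p : ℕ) + (p : ℕ))).card = n := by
      rw [card_image_of_injective _ (hmono c hc).injective]
      simp
    have e1 := Finset.orderEmbOfFin_unique hcard
      (f := fun p : Fin n => (c p : ℕ) + (p : ℕ))
      (fun p => mem_image_of_mem _ (mem_univ p)) (hmono c hc)
    have e2 := Finset.orderEmbOfFin_unique hcard
      (f := fun p : Fin n => (d p : ℕ) + (p : ℕ))
      (fun p => by rw [h]; exact mem_image_of_mem _ (mem_univ p)) (hmono d hd)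
    have e3 := e1.trans e2.symm
    funext p
    have h9 : (c p : ℕ) + (p : ℕ) = (d p : ℕ) + (p : ℕ) := congrFun e3 p
    apply Fin.ext
    omega

lemma choose_le_pow (s : ℕ) : (2 ^ 20 * s + s).choose s ≤ 2 ^ (22 * s) := by
  have h1 : 2 ^ 20 * s + s = (2 ^ 20 + 1) * s := by ring
  rw [h1]
  refine (Local.choose_mul_le (2 ^ 20 + 1) s).trans ?_
  rw [pow_mul]
  apply Nat.pow_le_pow_left
  norm_num

/-! ### Traces -/

/-- the bit reversal as a self-map of `Fin (2^L)` -/
def rv (L : ℕ) (p : Fin (2 ^ L)) : Fin (2 ^ L) := ⟨BitRev.rev L p, BitRev.rev_lt L p⟩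

lemma rv_rv (L : ℕ) (p : Fin (2 ^ L)) : rv L (rv L p) = p := by
  apply Fin.ext
  exact BitRev.rev_rev L p p.isLt

/-- the set of cells visited -/
def trace {L s : ℕ} (c r : Fin (2 ^ L) → Fin s) : Finset (Fin s × Fin s) :=
  univ.image (fun p => (c p, r (rv L p)))

/-- the number of points in a cell -/
def xc {L s : ℕ} (c r : Fin (2 ^ L) → Fin s) (i j : Fin s) : ℕ :=
  (univ.filter (fun p => c p = i ∧ r (rv L p) = j)).card

lemma xc_ne_zero_iff {L s : ℕ} (c r : Fin (2 ^ L) → Fin s) (i j : Fin s) :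
    xc c r i j ≠ 0 ↔ (i, j) ∈ trace c r := by
  unfold xc trace
  rw [card_ne_zero]
  constructor
  · rintro ⟨p, hp⟩
    obtain ⟨-, h1, h2⟩ := mem_filter.1 hp
    exact mem_image.2 ⟨p, mem_univ _, by rw [h1, h2]⟩
  · intro h
    obtain ⟨p, -, hp⟩ := mem_image.1 h
    rw [Prod.mk.injEq] at hp
    exact ⟨p, mem_filter.2 ⟨mem_univ _, hp.1, hp.2⟩⟩

lemma xc_eq_cnt {L s : ℕ} (c r : Fin (2 ^ L) → Fin s) (hc : Monotone c) (hr : Monotone r)
    (i j : Fin s) : xc c r i j = BitRev.cnt L (lo c i) (hi c i) (lo r j) (hi r j) := by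
  unfold xc BitRev.cnt
  refine card_bij (fun p _ => (p : ℕ)) ?_ ?_ ?_
  · intro p hp
    obtain ⟨-, h1, h2⟩ := mem_filter.1 hp
    rw [eq_iff c hc] at h1
    rw [eq_iff r hr] at h2
    exact mem_filter.2 ⟨mem_Ico.2 h1, h2⟩
  · intro p _ q _ h
    exact Fin.ext h
  · intro p hp
    obtain ⟨h1, h2⟩ := mem_filter.1 hp
    have h3 := mem_Ico.1 h1
    have hlt : p < 2 ^ L := lt_of_lt_of_le h3.2 (hi_le c i)
    refine ⟨⟨p, hlt⟩, ?_, rfl⟩
    refine mem_filter.2 ⟨mem_univ _, ?_, ?_⟩
    · rw [eq_iff c hc]; exact h3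
    · rw [eq_iff r hr]; exact h2

lemma xc_ub {L s : ℕ} (c r : Fin (2 ^ L) → Fin s) (hc : Monotone c) (hr : Monotone r)
    (i j : Fin s) : xc c r i j * 2 ^ L ≤ 4 * 2 ^ L + 4 * (fib c i * fib r j) := by
  rw [xc_eq_cnt c r hc hr, fib_eq, fib_eq]
  rcases Nat.eq_or_lt_of_le (lo_le_hi c i) with h | h
  · have : BitRev.cnt L (lo c i) (hi c i) (lo r j) (hi r j) = 0 := by
      unfold BitRev.cnt
      rw [h]; simp
    rw [this]; simp
  · exact BitRev.cnt_le L _ _ _ _ h ((Nat.sub_le _ _).trans (hi_le c i))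

lemma xc_lb {L s : ℕ} (c r : Fin (2 ^ L) → Fin s) (hc : Monotone c) (hr : Monotone r)
    (i j : Fin s) (h : 16 * 2 ^ L ≤ fib c i * fib r j) :
    fib c i * fib r j ≤ 8 * 2 ^ L * xc c r i j := by
  rw [xc_eq_cnt c r hc hr]
  rw [fib_eq, fib_eq] at h ⊢
  exact BitRev.le_cnt L _ _ _ _ (lo_le_hi c i) (hi_le c i) (lo_le_hi r j) (hi_le r j) h

lemma sum_xc_row {L s : ℕ} (c r : Fin (2 ^ L) → Fin s) (i : Fin s) :
    ∑ j, xc c r i j = fib c i := by
  unfold xc fib
  rw [card_eq_sum_card_fiberwise (s := univ.filter (fun q => c q = i)) (t := univ)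
    (f := fun p => r (rv L p)) (fun _ _ => mem_coe.2 (mem_univ _))]
  refine sum_congr rfl (fun j _ => ?_)
  rw [filter_filter]

lemma sum_xc_col {L s : ℕ} (c r : Fin (2 ^ L) → Fin s) (j : Fin s) :
    ∑ i, xc c r i j = fib r j := by
  have h1 : fib r j = (univ.filter (fun p => r (rv L p) = j)).card := by
    unfold fib
    refine card_bij (fun p _ => rv L p) ?_ ?_ ?_
    · intro p hp
      rw [mem_filter] at hp ⊢
      rw [rv_rv]; exact ⟨mem_univ _, hp.2⟩
    · intro p _ q _ h
      have := congrArg (rv L) h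
      rwa [rv_rv, rv_rv] at this
    · intro p hp
      refine ⟨rv L p, ?_, rv_rv L p⟩
      rw [mem_filter] at hp ⊢
      exact ⟨mem_univ _, hp.2⟩
  rw [h1]
  unfold xc
  rw [card_eq_sum_card_fiberwise (s := univ.filter (fun p => r (rv L p) = j)) (t := univ)
    (f := c) (fun _ _ => mem_coe.2 (mem_univ _))]
  refine sum_congr rfl (fun i _ => ?_)
  rw [filter_filter]
  congr 1
  ext p
  simp only [mem_filter, mem_univ, true_and]
  tauto

lemma sum_fib {n s : ℕ} (c : Fin n → Fin s) : ∑ i, fib c i = n := by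
  unfold fib
  rw [← card_eq_sum_card_fiberwise (s := univ) (t := univ)
    (f := c) (fun _ _ => mem_coe.2 (mem_univ _))]
  simp

/-! ### The core theorem -/

open Classical in
lemma sum_image_filter {α V : Type*} [DecidableEq V] (I : Finset α) (g : α → Finset V) (v : V)
    (f : Finset V → ℝ) (hf : ∀ W, 0 ≤ f W) :
    ∑ W ∈ (I.image g).filter (fun W => v ∈ W), f W
      ≤ ∑ x ∈ I.filter (fun x => v ∈ g x), f (g x) := by
  have h : (I.image g).filter (fun W => v ∈ W) = (I.filter (fun x => v ∈ g x)).image g := by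
    rw [filter_image]
  rw [h]
  exact sum_image_le_of_nonneg (fun W _ => hf W)

open Classical in
theorem core (L s : ℕ) (hL : 30 ≤ L) (hs : s = 2 ^ (L - 20)) (y : Fin s → Fin s → ℕ)
    (hrow : ∀ i, ∑ j, y i j ≤ 2 ^ (L - 30)) (hcol : ∀ j, ∑ i, y i j ≤ 2 ^ (L - 30)) :
    ∃ R : Finset (Fin s × Fin s),
      ∀ c r : Fin (2 ^ L) → Fin s, Monotone c → Monotone r →
        (∀ i j, xc c r i j ≤ y i j) → ¬ (trace c r ⊆ R) ∧ ¬ Disjoint (trace c r) R := by
  have hspos : 0 < s := by rw [hs]; positivity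
  have hns : 2 ^ L = 2 ^ 20 * s := by rw [hs, ← pow_add]; congr 1; omega
  -- global family
  set Ig : Finset ((Fin (2 ^ L) → Fin s) × (Fin (2 ^ L) → Fin s)) :=
    univ.filter (fun q => Monotone q.1 ∧ Monotone q.2 ∧ 2 ^ L ≤ 520 * (trace q.1 q.2).card) with hIg
  set Eg := Ig.image (fun q => trace q.1 q.2) with hEg
  -- local families
  set I1 : Finset ((ℕ × ℕ) × (Finset (Fin s) × Finset (Fin s))) :=
    ((range (L + 1) ×ˢ range (L + 1)) ×ˢ univ).filter
      (fun q => Local.adm y L q.1.1 q.1.2 q.2.1 q.2.2) with hI1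
  set E1 := I1.image (fun q => q.2.1 ×ˢ q.2.2) with hE1
  set I2 : Finset ((ℕ × ℕ) × (Finset (Fin s) × Finset (Fin s))) :=
    ((range (L + 1) ×ˢ range (L + 1)) ×ˢ univ).filter
      (fun q => Local.adm (fun i j => y j i) L q.1.1 q.1.2 q.2.1 q.2.2) with hI2
  set E2 := I2.image (fun q => q.2.2 ×ˢ q.2.1) with hE2
  have hglobcard : ∀ q ∈ Ig, 2016 * s ≤ (trace q.1 q.2).card := by
    intro q hq
    have h1 := (mem_filter.1 hq).2.2.2
    generalize (trace q.1 q.2).card = t at h1 ⊢
    rw [hns] at h1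
    by_contra hcon
    have h2 : 520 * t + 520 ≤ 520 * (2016 * s) := by omega
    omega
  have hempty : (∅ : Finset (Fin s × Fin s)) ∉ Eg ∪ (E1 ∪ E2) := by
    intro h
    rcases mem_union.1 h with h | h
    · obtain ⟨q, hq, hqe⟩ := mem_image.1 h
      have := hglobcard q hq
      rw [hqe, card_empty] at this
      omega
    · rcases mem_union.1 h with h | h
      · obtain ⟨q, hq, hqe⟩ := mem_image.1 h
        have hadm := (mem_filter.1 hq).2
        have hA : 0 < q.2.1.card := lt_of_lt_of_le (by positivity) hadm.2.2.1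
        have hB : 0 < q.2.2.card := lt_of_lt_of_le (by positivity) hadm.2.2.2.1
        have : 0 < (q.2.1 ×ˢ q.2.2).card := by rw [card_product]; positivity
        rw [hqe, card_empty] at this
        omega
      · obtain ⟨q, hq, hqe⟩ := mem_image.1 h
        have hadm := (mem_filter.1 hq).2
        have hA : 0 < q.2.1.card := lt_of_lt_of_le (by positivity) hadm.2.2.1
        have hB : 0 < q.2.2.card := lt_of_lt_of_le (by positivity) hadm.2.2.2.1
        have : 0 < (q.2.2 ×ˢ q.2.1).card := by rw [card_product]; positivity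
        rw [hqe, card_empty] at this
        omega
  have hf : ∀ W : Finset (Fin s × Fin s), (0 : ℝ) ≤ ((2 : ℝ) / 3) ^ (W.card - 1) :=
    fun W => by positivity
  have hsum : ∀ v : Fin s × Fin s,
      ∑ W ∈ (Eg ∪ (E1 ∪ E2)).filter (fun W => v ∈ W), ((2 : ℝ) / 3) ^ (W.card - 1) ≤ 1 / 4 := by
    intro v
    have hun : ∀ S T : Finset (Finset (Fin s × Fin s)),
        ∑ W ∈ (S ∪ T).filter (fun W => v ∈ W), ((2 : ℝ) / 3) ^ (W.card - 1)
        ≤ ∑ W ∈ S.filter (fun W => v ∈ W), ((2 : ℝ) / 3) ^ (W.card - 1)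
          + ∑ W ∈ T.filter (fun W => v ∈ W), ((2 : ℝ) / 3) ^ (W.card - 1) := by
      intro S T
      rw [filter_union]
      have := sum_union_inter (s₁ := S.filter (fun W => v ∈ W)) (s₂ := T.filter (fun W => v ∈ W))
        (f := fun W => ((2 : ℝ) / 3) ^ (W.card - 1))
      have h0 : (0 : ℝ) ≤ ∑ W ∈ (S.filter (fun W => v ∈ W)) ∩ (T.filter (fun W => v ∈ W)),
        ((2 : ℝ) / 3) ^ (W.card - 1) := sum_nonneg (fun W _ => hf W)
      linarith
    have hg : ∑ W ∈ Eg.filter (fun W => v ∈ W), ((2 : ℝ) / 3) ^ (W.card - 1) ≤ 1 / 16 := by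
      refine (sum_image_filter Ig (fun q => trace q.1 q.2) v _ hf).trans ?_
      have h1 : ∀ q ∈ Ig.filter (fun q => v ∈ trace q.1 q.2),
          ((2 : ℝ) / 3) ^ ((trace q.1 q.2).card - 1) ≤ (1 / 2) ^ (1000 * s) := by
        intro q hq
        have := hglobcard q (mem_filter.1 hq).1
        apply Local.two_thirds_pow
        omega
      refine (sum_le_sum h1).trans ?_
      rw [sum_const, nsmul_eq_mul]
      have h2 : ((Ig.filter (fun q => v ∈ trace q.1 q.2)).card : ℝ) ≤ 2 ^ (44 * s) := by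
        have h3 : (Ig.filter (fun q => v ∈ trace q.1 q.2)).card ≤ 2 ^ (22 * s) * 2 ^ (22 * s) := by
          have h4 : Ig.filter (fun q => v ∈ trace q.1 q.2) ⊆
              (univ.filter (fun c : Fin (2 ^ L) → Fin s => Monotone c)) ×ˢ
              (univ.filter (fun c : Fin (2 ^ L) → Fin s => Monotone c)) := by
            intro q hq
            obtain ⟨-, h5, h6, -⟩ := mem_filter.1 (mem_filter.1 hq).1
            exact mem_product.2 ⟨mem_filter.2 ⟨mem_univ _, h5⟩, mem_filter.2 ⟨mem_univ _, h6⟩⟩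
          refine (card_le_card h4).trans ?_
          rw [card_product]
          have h7 := (card_monotone (2 ^ L) s)
          rw [hns] at h7
          have h8 := h7.trans (choose_le_pow s)
          rw [← hns] at h8
          exact Nat.mul_le_mul h8 h8
        rw [← pow_add] at h3
        have : 22 * s + 22 * s = 44 * s := by ring
        rw [this] at h3
        exact_mod_cast h3
      calc ((Ig.filter (fun q => v ∈ trace q.1 q.2)).card : ℝ) * (1 / 2) ^ (1000 * s)
          ≤ 2 ^ (44 * s) * (1 / 2) ^ (1000 * s) := by gcongr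
        _ = (2 ^ (44 * s) * (1 / 2) ^ (44 * s)) * (1 / 2) ^ (956 * s) := by
            rw [mul_assoc, ← pow_add]; congr 2; ring
        _ = (1 / 2) ^ (956 * s) := by rw [← mul_pow]; norm_num
        _ ≤ (1 / 2) ^ 4 := pow_le_pow_of_le_one (by norm_num) (by norm_num) (by omega)
        _ = 1 / 16 := by norm_num
    have hl1 : ∑ W ∈ E1.filter (fun W => v ∈ W), ((2 : ℝ) / 3) ^ (W.card - 1) ≤ 1 / 64 := by
      refine (sum_image_filter I1 (fun q => q.2.1 ×ˢ q.2.2) v _ hf).trans ?_
      refine le_trans (le_of_eq ?_) (Local.sum_all y L hL v.1 v.2 hcol (L + 1))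
      rw [← sum_product', hI1, filter_filter]
      have e : ((range (L + 1) ×ˢ range (L + 1)) ×ˢ (univ : Finset (Finset (Fin s) × Finset (Fin s)))).filter
          (fun q => Local.adm y L q.1.1 q.1.2 q.2.1 q.2.2 ∧ v ∈ q.2.1 ×ˢ q.2.2)
          = ((range (L + 1) ×ˢ range (L + 1)) ×ˢ univ).filter
          (fun q => Local.adm y L q.1.1 q.1.2 q.2.1 q.2.2 ∧ v.1 ∈ q.2.1 ∧ v.2 ∈ q.2.2) := by
        refine filter_congr (fun q _ => ?_)
        rw [mem_product]
      rw [e, sum_filter, sum_product]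
      refine sum_congr rfl (fun q _ => ?_)
      rw [sum_filter]
      refine sum_congr rfl (fun P _ => ?_)
      simp only [card_product]
    have hl2 : ∑ W ∈ E2.filter (fun W => v ∈ W), ((2 : ℝ) / 3) ^ (W.card - 1) ≤ 1 / 64 := by
      refine (sum_image_filter I2 (fun q => q.2.2 ×ˢ q.2.1) v _ hf).trans ?_
      refine le_trans (le_of_eq ?_)
        (Local.sum_all (fun i j => y j i) L hL v.2 v.1 hrow (L + 1))
      rw [← sum_product', hI2, filter_filter]
      have e : ((range (L + 1) ×ˢ range (L + 1)) ×ˢ (univ : Finset (Finset (Fin s) × Finset (Fin s)))).filter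
          (fun q => Local.adm (fun i j => y j i) L q.1.1 q.1.2 q.2.1 q.2.2 ∧ v ∈ q.2.2 ×ˢ q.2.1)
          = ((range (L + 1) ×ˢ range (L + 1)) ×ˢ univ).filter
          (fun q => Local.adm (fun i j => y j i) L q.1.1 q.1.2 q.2.1 q.2.2
            ∧ v.2 ∈ q.2.1 ∧ v.1 ∈ q.2.2) := by
        refine filter_congr (fun q _ => ?_)
        rw [mem_product]
        tauto
      rw [e, sum_filter, sum_product]
      refine sum_congr rfl (fun q _ => ?_)
      rw [sum_filter]
      refine sum_congr rfl (fun P _ => ?_)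
      simp only [card_product]
      rw [mul_comm P.2.card P.1.card]
    have h1 := hun Eg (E1 ∪ E2)
    have h2 := hun E1 E2
    linarith
  obtain ⟨R, hR⟩ := PropB.two_colourable (Eg ∪ (E1 ∪ E2)) hempty hsum
  refine ⟨R, ?_⟩
  intro c r hc hr hxy
  -- it suffices to find an edge inside the trace
  suffices h : ∃ W ∈ Eg ∪ (E1 ∪ E2), W ⊆ trace c r by
    obtain ⟨W, hW, hsub⟩ := h
    have := hR W hW
    exact ⟨fun h => this.1 (hsub.trans h), fun h => this.2 (disjoint_of_subset_left hsub h)⟩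
  by_cases hbig : 2 ^ L ≤ 520 * (trace c r).card
  · refine ⟨trace c r, mem_union_left _ (mem_image.2 ⟨(c, r), ?_, rfl⟩), Subset.refl _⟩
    exact mem_filter.2 ⟨mem_univ _, hc, hr, hbig⟩
  · have hT : 520 * ((univ : Finset (Fin s × Fin s)).filter
        (fun q => xc c r q.1 q.2 ≠ 0)).card < 2 ^ L := by
      have : (univ : Finset (Fin s × Fin s)).filter (fun q => xc c r q.1 q.2 ≠ 0)
          = trace c r := by
        ext q
        rw [mem_filter, xc_ne_zero_iff]
        simp
      rw [this]; omega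
    have hfc : ∀ i, fib c i ≤ 2 ^ (L - 30) := fun i => by
      rw [← sum_xc_row c r i]
      exact (sum_le_sum (fun j _ => hxy i j)).trans (hrow i)
    have hfr : ∀ j, fib r j ≤ 2 ^ (L - 30) := fun j => by
      rw [← sum_xc_col c r j]
      exact (sum_le_sum (fun i _ => hxy i j)).trans (hcol j)
    have hxs : ∑ i, ∑ j, xc c r i j = 2 ^ L := by
      rw [sum_congr rfl (fun i _ => sum_xc_row c r i)]
      exact sum_fib c
    rcases Select.select L hL (fib c) (fib r) (xc c r) y hfc hfr (sum_fib c) (sum_fib r) hxs hxy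
      (xc_ub c r hc hr) (xc_lb c r hc hr) hrow hcol hT with
      ⟨k, hk, l, hl, A, B, hadm, hx0⟩ | ⟨k, hk, l, hl, A, B, hadm, hx0⟩
    · refine ⟨A ×ˢ B, mem_union_right _ (mem_union_left _ (mem_image.2
        ⟨((k, l), (A, B)), ?_, rfl⟩)), ?_⟩
      · exact mem_filter.2 ⟨mem_product.2 ⟨mem_product.2 ⟨hk, hl⟩, mem_univ _⟩, hadm⟩
      · intro q hq
        obtain ⟨h1, h2⟩ := mem_product.1 hq
        exact (xc_ne_zero_iff c r q.1 q.2).1 (hx0 _ h1 _ h2)
    · refine ⟨B ×ˢ A, mem_union_right _ (mem_union_right _ (mem_image.2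
        ⟨((k, l), (A, B)), ?_, rfl⟩)), ?_⟩
      · exact mem_filter.2 ⟨mem_product.2 ⟨mem_product.2 ⟨hk, hl⟩, mem_univ _⟩, hadm⟩
      · intro q hq
        obtain ⟨h1, h2⟩ := mem_product.1 hq
        exact (xc_ne_zero_iff c r q.1 q.2).1 (hx0 _ h2 _ h1)

end Pool.Agent.Helper18.Core
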